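import Pool.Agent.Q97.KD.Polar

set_option autoImplicit false

/-!
Minkowski's inequality for series and the majorant for covers.
-/

open MeasureTheory Set Filter Topology ENNReal NNReal Metric
open scoped Pointwise

namespace Pool.Agent.Q97.KD

theorem mink_fin {X : Type*} [MeasurableSpace X] (μ : Measure X) {p : ℝ} (hp : 1 ≤ p)
    {g : ℕ → X → ℝ≥0∞} (hg : ∀ j, Measurable (g j)) (N : ℕ) :
    (∫⁻ x, (∑ j ∈ Finset.range N, g j x) ^ p ∂μ) ^ (1 / p) ≤
      ∑ j ∈ Finset.range N, (∫⁻ x, g j x ^ p ∂μ) ^ (1 / p) := by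
  have hp0 : 0 < p := by linarith
  induction N with
  | zero => simp [hp0]
  | succ N ih =>
    simp only [Finset.sum_range_succ]
    refine (ENNReal.lintegral_Lp_add_le (f := fun x => ∑ j ∈ Finset.range N, g j x) (g := g N)
      (Finset.measurable_sum _ fun j _ => hg j).aemeasurable (hg N).aemeasurable hp).trans ?_
    exact add_le_add ih le_rfl

theorem mink {X : Type*} [MeasurableSpace X] (μ : Measure X) {p : ℝ} (hp : 1 ≤ p)
    {g : ℕ → X → ℝ≥0∞} (hg : ∀ j, Measurable (g j)) :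
    ∫⁻ x, (∑' j, g j x) ^ p ∂μ ≤ (∑' j, (∫⁻ x, g j x ^ p ∂μ) ^ (1 / p)) ^ p := by
  have hp0 : 0 < p := by linarith
  have h1 : ∀ N : ℕ, ∫⁻ x, (∑ j ∈ Finset.range N, g j x) ^ p ∂μ ≤
      (∑' j, (∫⁻ x, g j x ^ p ∂μ) ^ (1 / p)) ^ p := by
    intro N
    have h2 := mink_fin μ hp hg N
    have h3 : ∫⁻ x, (∑ j ∈ Finset.range N, g j x) ^ p ∂μ =
        ((∫⁻ x, (∑ j ∈ Finset.range N, g j x) ^ p ∂μ) ^ (1 / p)) ^ p := by
      rw [← ENNReal.rpow_mul, one_div, inv_mul_cancel₀ hp0.ne', ENNReal.rpow_one]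
    rw [h3]
    exact ENNReal.rpow_le_rpow (h2.trans (ENNReal.sum_le_tsum _)) hp0.le
  have hmono : Monotone (fun (N : ℕ) (x : X) => (∑ j ∈ Finset.range N, g j x) ^ p) := by
    intro a b hab x
    exact ENNReal.rpow_le_rpow (Finset.sum_le_sum_of_subset (Finset.range_mono hab)) hp0.le
  have h4 : ∀ x, ⨆ N : ℕ, (∑ j ∈ Finset.range N, g j x) ^ p = (∑' j, g j x) ^ p := by
    intro x
    have ht : Tendsto (fun N : ℕ => (∑ j ∈ Finset.range N, g j x) ^ p) atTop (𝓝 ((∑' j, g j x) ^ p)) :=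
      (ENNReal.continuous_rpow_const.continuousAt.tendsto).comp ENNReal.summable.tendsto_sum_tsum_nat
    exact iSup_eq_of_tendsto (fun a b hab => hmono hab x) ht
  calc ∫⁻ x, (∑' j, g j x) ^ p ∂μ = ∫⁻ x, ⨆ N : ℕ, (∑ j ∈ Finset.range N, g j x) ^ p ∂μ := by
        simp only [h4]
    _ = ⨆ N : ℕ, ∫⁻ x, (∑ j ∈ Finset.range N, g j x) ^ p ∂μ :=
        lintegral_iSup (fun N => (Finset.measurable_sum _ fun j _ => hg j).pow_const p) hmono
    _ ≤ _ := iSup_le h1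

/-- the total size `∑ |A j - A j| ^ (1 / n)` of the difference sets of a family -/
noncomputable def diffSum {n : ℕ} (A : ℕ → Set (EuclideanSpace ℝ (Fin n))) : ℝ≥0∞ :=
  ∑' j, volume (A j - A j) ^ (1 / (n : ℝ))

theorem lineLength_mono {n : ℕ} {A B : Set (EuclideanSpace ℝ (Fin n))} (h : A ⊆ B)
    (e : EuclideanSpace ℝ (Fin n)) : lineLength A e ≤ lineLength B e :=
  iSup_mono fun _ => measure_mono fun _ hs => h hs

theorem lineLength_iUnion_le {n : ℕ} (A : ℕ → Set (EuclideanSpace ℝ (Fin n)))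
    (e : EuclideanSpace ℝ (Fin n)) : lineLength (⋃ j, A j) e ≤ ∑' j, lineLength (A j) e := by
  apply iSup_le
  intro z
  have h1 : {s : ℝ | z + s • e ∈ ⋃ j, A j} = ⋃ j, {s : ℝ | z + s • e ∈ A j} := by
    ext s; simp
  rw [h1]
  refine (measure_iUnion_le _).trans (ENNReal.tsum_le_tsum fun j => ?_)
  exact le_iSup (fun z : EuclideanSpace ℝ (Fin n) => volume {s : ℝ | z + s • e ∈ A j}) z

theorem cover_majorant {n : ℕ} (hn : 1 ≤ n) (A : ℕ → Set (EuclideanSpace ℝ (Fin n))) :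
    ∃ g : sphere (0 : EuclideanSpace ℝ (Fin n)) 1 → ℝ≥0∞, Measurable g ∧
      (∀ e : sphere (0 : EuclideanSpace ℝ (Fin n)) 1,
        lineLength (⋃ j, A j) (e : EuclideanSpace ℝ (Fin n)) ≤ g e) ∧
      ∫⁻ e, g e ^ n ∂(surf n) ≤ n * diffSum A ^ n := by
  have hn1 : (1:ℝ) ≤ n := by exact_mod_cast hn
  have hn0 : (n:ℝ) ≠ 0 := by positivity
  choose g hgm hg hgi using fun j => exists_majorant hn (A j)
  refine ⟨fun e => ∑' j, g j e, Measurable.ennreal_tsum hgm, ?_, ?_⟩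
  · intro e
    exact (lineLength_iUnion_le A _).trans (ENNReal.tsum_le_tsum fun j => hg j e)
  · have h1 := mink (surf n) hn1 hgm
    simp only [ENNReal.rpow_natCast] at h1
    refine h1.trans (le_of_eq ?_)
    simp only [hgi]
    have h2 : ∀ j, (((n:ℝ≥0∞) * volume (A j - A j)) ^ (1 / (n:ℝ))) =
        (n:ℝ≥0∞) ^ (1 / (n:ℝ)) * volume (A j - A j) ^ (1 / (n:ℝ)) := fun j =>
      ENNReal.mul_rpow_of_nonneg _ _ (by positivity)
    simp only [h2]
    rw [ENNReal.tsum_mul_left, mul_pow]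
    congr 1
    rw [← ENNReal.rpow_natCast, ← ENNReal.rpow_mul, one_div, inv_mul_cancel₀ hn0, ENNReal.rpow_one]

end Pool.Agent.Q97.KD
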