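import Pool.Agent.Q97.KD.Struct

set_option autoImplicit false

/-!
The critical exponent, and the final forms of the estimates.
-/

open MeasureTheory Set Filter Topology ENNReal NNReal Metric
open scoped Pointwise

namespace Pool.Agent.Q97.KD

open Pool.Agent.W770.SA (tube kakeyaMax)

theorem tube_inter_le {n : ℕ} {δ : ℝ} {e b : EuclideanSpace ℝ (Fin n)} (he : ‖e‖ = 1)
    {A : Set (EuclideanSpace ℝ (Fin n))} (hA : MeasurableSet A) :
    volume (tube δ e b ∩ A) ≤ 2 * volume (tube δ e b) * lineLength A e := by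
  have h1 := Pool.Agent.W770.SA.lintegral_tube_le (δ := δ) (b := b) he
    (g := A.indicator 1) (measurable_one.indicator hA)
  have hTm : MeasurableSet (tube δ e b) := (Pool.Agent.W770.SA.isClosed_tube δ e b).measurableSet
  rw [lintegral_indicator_one hA, Measure.restrict_apply hA, inter_comm] at h1
  refine h1.trans (mul_le_mul_right ?_ _)
  apply iSup_le
  intro z
  have hm : MeasurableSet {s : ℝ | z + s • e ∈ A} :=
    hA.preimage (by fun_prop : Measurable fun s : ℝ => z + s • e)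
  calc ∫⁻ s in Icc (0:ℝ) 1, A.indicator 1 (z + s • e) ≤ ∫⁻ s : ℝ, A.indicator 1 (z + s • e) :=
        setLIntegral_le_lintegral _ _
    _ = ∫⁻ s : ℝ, {s : ℝ | z + s • e ∈ A}.indicator 1 s := rfl
    _ = volume {s : ℝ | z + s • e ∈ A} := lintegral_indicator_one hm
    _ ≤ _ := le_iSup (fun z : EuclideanSpace ℝ (Fin n) => volume {s : ℝ | z + s • e ∈ A}) z

/-- Pointwise bound of the maximal function by finitely many layers. -/
theorem pointwise_crit {n m : ℕ} (hnm : n = m + 1) (hm : 1 ≤ m) {c : ℝ} (hc : 0 < c)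
    (hvol : ∀ (δ : ℝ) (e a : EuclideanSpace ℝ (Fin n)), 0 < δ → ‖e‖ = 1 →
      ENNReal.ofReal (c * δ ^ m) ≤ volume (tube δ e a))
    {δ : ℝ} (hδ : 0 < δ) {J : ℕ} (hJ : (1/2:ℝ) ^ J ≤ δ) {f : EuclideanSpace ℝ (Fin n) → ℝ}
    (hf : Measurable f) {F : ℝ} (hF : 0 < F)
    (hW : ∫⁻ y, ‖f y‖ₑ ^ n ≤ ENNReal.ofReal (F ^ n))
    {e : EuclideanSpace ℝ (Fin n)} (he : ‖e‖ = 1) :
    kakeyaMax δ f e ≤ ENNReal.ofReal (F * (1 + 2 / c)) +
      ∑ j ∈ Finset.range J, ENNReal.ofReal (2 ^ j * F) * (2 * lineLength {y | 2 ^ j * F < |f y|} e) := by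
  subst hnm
  unfold kakeyaMax
  apply iSup_le
  intro a
  set A : ℕ → Set (EuclideanSpace ℝ (Fin (m + 1))) := fun j => {y | 2 ^ j * F < |f y|} with hA
  have hAm : ∀ j, MeasurableSet (A j) := fun j => measurableSet_lt measurable_const hf.abs
  set T := tube δ e a with hT
  have hTv := hvol δ e a hδ he
  have hT0 : volume T ≠ 0 := by
    have : 0 < ENNReal.ofReal (c * δ ^ m) := ENNReal.ofReal_pos.2 (by positivity)
    exact (lt_of_lt_of_le this hTv).ne'
  have hTt : volume T ≠ ∞ := (Pool.Agent.W770.SA.volume_tube_lt_top he).ne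
  have h1 := Pool.Agent.W770.SA.lintegral_layers (volume.restrict T) (g := fun y => |f y|)
    (hf.abs.aemeasurable) hF
  have h2 : ∫⁻ y in T, ‖f y‖ₑ = ∫⁻ y in T, ENNReal.ofReal |f y| := by
    congr 1; ext y; rw [← ofReal_norm, Real.norm_eq_abs]
  have hTm : MeasurableSet T := (Pool.Agent.W770.SA.isClosed_tube δ e a).measurableSet
  have h3 : ∀ j : ℕ, (volume.restrict T) {y | 2 ^ j * F < |f y|} = volume (T ∩ A j) := by
    intro j
    rw [Measure.restrict_apply (hAm j), inter_comm]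
  rw [h2]
  simp only [h3, Measure.restrict_apply_univ] at h1
  -- low layers
  have hlow : ∀ j, (volume T)⁻¹ * volume (T ∩ A j) ≤ 2 * lineLength (A j) e := by
    intro j
    calc (volume T)⁻¹ * volume (T ∩ A j) ≤ (volume T)⁻¹ * (2 * volume T * lineLength (A j) e) := by
          gcongr
          exact tube_inter_le he (hAm j)
      _ = ((volume T)⁻¹ * volume T) * (2 * lineLength (A j) e) := by ring
      _ = _ := by rw [ENNReal.inv_mul_cancel hT0 hTt, one_mul]
  -- high layers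
  have hmes : ∀ j : ℕ, volume (A j) ≤ ENNReal.ofReal (((1/2:ℝ) ^ j) ^ (m + 1)) := by
    intro j
    have h4 := Pool.Agent.W770.SA.markov hf.aemeasurable hW (s := 2 ^ j * F) (by positivity)
    have h5 : ENNReal.ofReal (F ^ (m + 1)) = ENNReal.ofReal ((2 ^ j * F) ^ (m + 1)) *
        ENNReal.ofReal (((1/2:ℝ) ^ j) ^ (m + 1)) := by
      rw [← ENNReal.ofReal_mul (by positivity), ← mul_pow]
      congr 2
      rw [one_div, inv_pow]
      field_simp
    rw [h5] at h4
    exact (ENNReal.mul_le_mul_iff_right (by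
      rw [Ne, ENNReal.ofReal_eq_zero, not_le]; positivity) ENNReal.ofReal_ne_top).1 h4
  have hhigh : ∀ j : ℕ, ENNReal.ofReal (2 ^ (j + J) * F) *
      ((volume T)⁻¹ * volume (T ∩ A (j + J))) ≤ ENNReal.ofReal (F / c) * ENNReal.ofReal ((1/2) ^ j) := by
    intro j
    calc ENNReal.ofReal (2 ^ (j + J) * F) * ((volume T)⁻¹ * volume (T ∩ A (j + J)))
        ≤ ENNReal.ofReal (2 ^ (j + J) * F) * ((ENNReal.ofReal (c * δ ^ m))⁻¹ *
          ENNReal.ofReal (((1/2:ℝ) ^ (j + J)) ^ (m + 1))) := by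
          gcongr
          exact (measure_mono inter_subset_right).trans (hmes _)
      _ = ENNReal.ofReal (2 ^ (j + J) * F * ((c * δ ^ m)⁻¹ * ((1/2:ℝ) ^ (j + J)) ^ (m + 1))) := by
          rw [← ENNReal.ofReal_inv_of_pos (by positivity), ← ENNReal.ofReal_mul (by positivity),
            ← ENNReal.ofReal_mul (by positivity)]
      _ ≤ ENNReal.ofReal (F / c * (1/2) ^ j) := by
          apply ENNReal.ofReal_le_ofReal
          have h6 : (2:ℝ) ^ (j + J) * ((1/2:ℝ) ^ (j + J)) ^ (m + 1) = ((1/2:ℝ) ^ (j + J)) ^ m := by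
            rw [pow_succ, ← mul_assoc, mul_comm ((2:ℝ) ^ (j + J)), mul_assoc, ← mul_pow]
            norm_num
          have h7 : ((1/2:ℝ) ^ (j + J)) ^ m ≤ (1/2) ^ j * δ ^ m := by
            rw [pow_add, mul_pow]
            have h8 : ((1/2:ℝ) ^ j) ^ m ≤ (1/2) ^ j := by
              calc ((1/2:ℝ) ^ j) ^ m ≤ ((1/2:ℝ) ^ j) ^ 1 :=
                    pow_le_pow_of_le_one (by positivity) (pow_le_one₀ (by norm_num) (by norm_num)) hm
                _ = _ := pow_one _
            gcongr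
          calc 2 ^ (j + J) * F * ((c * δ ^ m)⁻¹ * ((1/2:ℝ) ^ (j + J)) ^ (m + 1))
              = F * (c * δ ^ m)⁻¹ * (2 ^ (j + J) * ((1/2:ℝ) ^ (j + J)) ^ (m + 1)) := by ring
            _ ≤ F * (c * δ ^ m)⁻¹ * ((1/2) ^ j * δ ^ m) := by
                rw [h6]
                gcongr
            _ = F / c * (1/2) ^ j := by
                field_simp
      _ = _ := by rw [ENNReal.ofReal_mul (by positivity)]
  calc (volume T)⁻¹ * ∫⁻ y in T, ENNReal.ofReal |f y|
      ≤ (volume T)⁻¹ * (ENNReal.ofReal F * volume T +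
        ∑' j : ℕ, ENNReal.ofReal (2 ^ j * F) * volume (T ∩ A j)) := by gcongr
    _ = ENNReal.ofReal F + ∑' j : ℕ, ENNReal.ofReal (2 ^ j * F) *
        ((volume T)⁻¹ * volume (T ∩ A j)) := by
        rw [mul_add, ← ENNReal.tsum_mul_left]
        congr 1
        · rw [mul_comm, mul_assoc, ENNReal.mul_inv_cancel hT0 hTt, mul_one]
        · congr 1; ext j; ring
    _ = ENNReal.ofReal F + (∑ j ∈ Finset.range J, ENNReal.ofReal (2 ^ j * F) *
        ((volume T)⁻¹ * volume (T ∩ A j)) + ∑' j : ℕ, ENNReal.ofReal (2 ^ (j + J) * F) *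
        ((volume T)⁻¹ * volume (T ∩ A (j + J)))) := by
        congr 1
        exact (ENNReal.summable.sum_add_tsum_nat_add' (f := fun j : ℕ =>
          ENNReal.ofReal (2 ^ j * F) * ((volume T)⁻¹ * volume (T ∩ A j)))).symm
    _ ≤ ENNReal.ofReal F + (∑ j ∈ Finset.range J, ENNReal.ofReal (2 ^ j * F) *
        (2 * lineLength (A j) e) + ∑' j : ℕ, ENNReal.ofReal (F / c) * ENNReal.ofReal ((1/2) ^ j)) := by
        refine add_le_add le_rfl (add_le_add (Finset.sum_le_sum fun j _ => ?_)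
          (ENNReal.tsum_le_tsum fun j => hhigh j))
        exact mul_le_mul_right (hlow j) _
    _ = _ := by
        have h9 : ∑' j : ℕ, ENNReal.ofReal (F / c) * ENNReal.ofReal ((1/2) ^ j) =
            ENNReal.ofReal (F * (2 / c)) := by
          rw [ENNReal.tsum_mul_left]
          have h10 : ∑' j : ℕ, ENNReal.ofReal ((1/2:ℝ) ^ j) = ENNReal.ofReal 2 := by
            rw [← ENNReal.ofReal_tsum_of_nonneg (fun j => by positivity)
              summable_geometric_two, tsum_geometric_two]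
          rw [h10, ← ENNReal.ofReal_mul (by positivity)]
          congr 1; ring
        rw [h9, mul_add, mul_one, ENNReal.ofReal_add hF.le (by positivity)]
        ring

theorem surf_univ_lt_top {n : ℕ} : surf n univ < ∞ := Pool.Agent.W770.SA.sig_univ_lt_top

/-- the main step -/
theorem crit_aux {n m : ℕ} (hnm : n = m + 1) (hm : 1 ≤ m) {c : ℝ} (hc : 0 < c)
    (hvol : ∀ (δ : ℝ) (e a : EuclideanSpace ℝ (Fin n)), 0 < δ → ‖e‖ = 1 →
      ENNReal.ofReal (c * δ ^ m) ≤ volume (tube δ e a))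
    {K : ℝ≥0∞} (hK : 1 ≤ K)
    {δ : ℝ} (hδ : 0 < δ) {J : ℕ} (hJ : (1/2:ℝ) ^ J ≤ δ) {f : EuclideanSpace ℝ (Fin n) → ℝ}
    (hf : Measurable f) {F : ℝ} (hF : 0 < F)
    (hW : ∫⁻ y, ‖f y‖ₑ ^ n ≤ ENNReal.ofReal (F ^ n))
    (hs : ∀ j : ℕ, StructAt K f (2 ^ j * F)) :
    ∫⁻ e, kakeyaMax δ f (e : EuclideanSpace ℝ (Fin n)) ^ n ∂(surf n) ≤
      ENNReal.ofReal (((surf n univ).toReal * (1 + 2 / c) ^ n + 2 * (2 ^ n * n)) *
        ((J:ℝ) + 1) ^ m) * K * ENNReal.ofReal (F ^ n) := by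
  have hn1 : 1 ≤ n := by omega
  set Sg : ℝ := (surf n univ).toReal with hSg
  have hSg0 : 0 ≤ Sg := ENNReal.toReal_nonneg
  have hσ : surf n univ = ENNReal.ofReal Sg := (ENNReal.ofReal_toReal surf_univ_lt_top.ne).symm
  choose g hgm hg hgi using fun j : ℕ => level_majorant hn1 (hs j)
  set y : sphere (0 : EuclideanSpace ℝ (Fin n)) 1 → ℕ → ℝ≥0∞ := fun e i => match i with
    | 0 => ENNReal.ofReal (F * (1 + 2 / c))
    | i + 1 => ENNReal.ofReal (2 ^ i * F) * (2 * g i e) with hy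
  have hpt : ∀ e : sphere (0 : EuclideanSpace ℝ (Fin n)) 1,
      kakeyaMax δ f (e : EuclideanSpace ℝ (Fin n)) ^ n ≤
        ((J + 1 : ℕ):ℝ≥0∞) ^ m * ∑ i ∈ Finset.range (J + 1), y e i ^ n := by
    intro e
    have he : ‖(e : EuclideanSpace ℝ (Fin n))‖ = 1 := by simp
    have h1 := pointwise_crit hnm hm hc hvol hδ hJ hf hF hW he
    have h2 : ENNReal.ofReal (F * (1 + 2 / c)) + ∑ j ∈ Finset.range J,
        ENNReal.ofReal (2 ^ j * F) * (2 * lineLength {y | 2 ^ j * F < |f y|} (e : EuclideanSpace ℝ (Fin n))) ≤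
        ∑ i ∈ Finset.range (J + 1), y e i := by
      rw [Finset.sum_range_succ', add_comm]
      refine add_le_add (Finset.sum_le_sum fun j _ => ?_) le_rfl
      exact mul_le_mul_right (mul_le_mul_right (hg j e) _) _
    exact (pow_le_pow_left' (h1.trans h2) n).trans (Pool.Agent.W770.SA.pow_sum_le hnm _)
  have hym : ∀ i, Measurable (fun e => y e i ^ n) := by
    intro i
    rcases i with _ | i
    · exact measurable_const
    · exact (((hgm i).const_mul _).const_mul _).pow_const n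
  have hlev := Pool.Agent.W770.SA.sum_levels_le (volume : Measure (EuclideanSpace ℝ (Fin n)))
    (g := fun y => |f y|) hf.abs.aemeasurable hF hn1 J
  have hW' : ∫⁻ x, ENNReal.ofReal (|(|f x|)| ^ n) ≤ ENNReal.ofReal (F ^ n) := by
    refine le_trans (le_of_eq ?_) hW
    congr 1; ext x
    rw [abs_abs, ENNReal.ofReal_pow (abs_nonneg _), ← ofReal_norm, Real.norm_eq_abs]
  calc ∫⁻ e, kakeyaMax δ f (e : EuclideanSpace ℝ (Fin n)) ^ n ∂(surf n)
      ≤ ∫⁻ e, ((J + 1 : ℕ):ℝ≥0∞) ^ m * ∑ i ∈ Finset.range (J + 1), y e i ^ n ∂(surf n) :=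
        lintegral_mono hpt
    _ = ((J + 1 : ℕ):ℝ≥0∞) ^ m * ∑ i ∈ Finset.range (J + 1), ∫⁻ e, y e i ^ n ∂(surf n) := by
        rw [lintegral_const_mul _ (Finset.measurable_sum _ fun i _ => hym i),
          lintegral_finsetSum _ fun i _ => hym i]
    _ ≤ ((J + 1 : ℕ):ℝ≥0∞) ^ m * (2 ^ n * (n * K * (2 * ENNReal.ofReal (F ^ n))) +
          ENNReal.ofReal (Sg * (1 + 2 / c) ^ n * F ^ n)) := by
        refine mul_le_mul_right ?_ _
        rw [Finset.sum_range_succ']
        refine add_le_add ?_ ?_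
        · calc ∑ i ∈ Finset.range J, ∫⁻ e, y e (i + 1) ^ n ∂(surf n)
              ≤ ∑ i ∈ Finset.range J, 2 ^ n * (n * K * (ENNReal.ofReal ((2 ^ i * F) ^ n) *
                  volume {x | 2 ^ i * F < |f x|})) := by
                refine Finset.sum_le_sum fun i _ => ?_
                have e1 : ∀ e, y e (i + 1) ^ n = ENNReal.ofReal ((2 ^ i * F) ^ n) * 2 ^ n * g i e ^ n := by
                  intro e
                  show (ENNReal.ofReal (2 ^ i * F) * (2 * g i e)) ^ n = _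
                  rw [mul_pow, mul_pow, ENNReal.ofReal_pow (by positivity)]
                  ring
                simp only [e1]
                rw [lintegral_const_mul _ ((hgm i).pow_const n)]
                calc ENNReal.ofReal ((2 ^ i * F) ^ n) * 2 ^ n * ∫⁻ e, g i e ^ n ∂(surf n)
                    ≤ ENNReal.ofReal ((2 ^ i * F) ^ n) * 2 ^ n *
                      (n * K * volume {y | 2 ^ i * F < |f y|}) := by
                      gcongr
                      exact hgi i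
                  _ = _ := by ring
            _ = 2 ^ n * (n * K * ∑ i ∈ Finset.range J, (ENNReal.ofReal ((2 ^ i * F) ^ n) *
                  volume {x | 2 ^ i * F < |f x|})) := by
                rw [← Finset.mul_sum, ← Finset.mul_sum]
            _ ≤ _ := by
                refine mul_le_mul_right (mul_le_mul_right ?_ _) _
                exact hlev.trans (mul_le_mul_right hW' _)
        · show ∫⁻ e, ENNReal.ofReal (F * (1 + 2 / c)) ^ n ∂(surf n) ≤ _
          rw [lintegral_const, hσ, ← ENNReal.ofReal_pow (by positivity),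
            ← ENNReal.ofReal_mul (by positivity)]
          apply ENNReal.ofReal_le_ofReal
          rw [mul_pow]
          linarith
    _ ≤ ((J + 1 : ℕ):ℝ≥0∞) ^ m * (2 ^ n * (n * K * (2 * ENNReal.ofReal (F ^ n))) +
          ENNReal.ofReal (Sg * (1 + 2 / c) ^ n * F ^ n) * K) := by
        gcongr
        exact le_mul_of_one_le_right' hK
    _ = _ := by
        have e1 : ((J + 1 : ℕ):ℝ≥0∞) ^ m = ENNReal.ofReal (((J:ℝ) + 1) ^ m) := by
          rw [ENNReal.ofReal_pow (by positivity)]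
          congr 1
          rw [← ENNReal.ofReal_natCast]
          push_cast
          rfl
        have e2 : (2:ℝ≥0∞) ^ n * n * 2 = ENNReal.ofReal (2 * (2 ^ n * n)) := by
          rw [ENNReal.ofReal_mul (by norm_num), ENNReal.ofReal_mul (by positivity),
            ENNReal.ofReal_pow (by norm_num), ENNReal.ofReal_natCast, ENNReal.ofReal_ofNat]
          ring
        have e3 : ENNReal.ofReal ((Sg * (1 + 2 / c) ^ n + 2 * (2 ^ n * n)) * ((J:ℝ) + 1) ^ m) =
            (ENNReal.ofReal (Sg * (1 + 2 / c) ^ n) + ENNReal.ofReal (2 * (2 ^ n * n))) *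
            ENNReal.ofReal (((J:ℝ) + 1) ^ m) := by
          rw [← ENNReal.ofReal_add (by positivity) (by positivity), ← ENNReal.ofReal_mul (by positivity)]
        have e4 : ENNReal.ofReal (Sg * (1 + 2 / c) ^ n * F ^ n) =
            ENNReal.ofReal (Sg * (1 + 2 / c) ^ n) * ENNReal.ofReal (F ^ n) := by
          rw [← ENNReal.ofReal_mul (by positivity)]
        rw [e1, e3, e4, ← e2]
        ring

theorem kakeyaMax_congr {n : ℕ} {δ : ℝ} {f g : EuclideanSpace ℝ (Fin n) → ℝ}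
    (h : f =ᵐ[volume] g) (e : EuclideanSpace ℝ (Fin n)) : kakeyaMax δ f e = kakeyaMax δ g e := by
  unfold kakeyaMax
  congr 1; ext a
  congr 1
  apply lintegral_congr_ae
  filter_upwards [ae_restrict_of_ae h] with y hy
  rw [hy]

/-- **The estimate at the critical exponent.** -/
theorem crit (n : ℕ) (hn2 : 2 ≤ n) : ∃ C : ℝ, 0 < C ∧ ∀ (K : ℝ≥0∞) (δ : ℝ)
    (f : EuclideanSpace ℝ (Fin n) → ℝ), 1 ≤ K → 0 < δ → δ < 1 →
      AEMeasurable f volume → (∀ s : ℝ, 0 < s → StructAtAE K f s) →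
      ∫⁻ e, kakeyaMax δ f (e : EuclideanSpace ℝ (Fin n)) ^ n ∂(surf n) ≤
        ENNReal.ofReal (C * (1 + Real.log (1 / δ)) ^ (n - 1)) * K * ∫⁻ y, ‖f y‖ₑ ^ n := by
  obtain ⟨m, hn⟩ : ∃ m, n = m + 1 := ⟨n - 1, by omega⟩
  have hm : 1 ≤ m := by omega
  have hn1 : n - 1 = m := by omega
  have hn0 : (0:ℝ) < n := by exact_mod_cast (by omega : 0 < n)
  obtain ⟨c, hc, hvol⟩ : ∃ c : ℝ, 0 < c ∧ ∀ (δ : ℝ) (e a : EuclideanSpace ℝ (Fin n)), 0 < δ →
      ‖e‖ = 1 → ENNReal.ofReal (c * δ ^ m) ≤ volume (tube δ e a) := by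
    subst hn
    exact Pool.Agent.H742R2.Kk.volume_tube m
  set Sg : ℝ := (surf n univ).toReal with hSg
  have hSg0 : 0 ≤ Sg := ENNReal.toReal_nonneg
  set C0 : ℝ := Sg * (1 + 2 / c) ^ n + 2 * (2 ^ n * n) with hC0
  have hC0p : 0 < C0 := by positivity
  refine ⟨C0 * 3 ^ m, by positivity, ?_⟩
  intro K δ f hK hδ hδ1 hf hs
  rw [hn1]
  have hlog : 0 < Real.log (1 / δ) := Real.log_pos (by rw [lt_div_iff₀ hδ]; linarith)
  set W := ∫⁻ y, ‖f y‖ₑ ^ n with hWdef
  set R : ℝ := C0 * 3 ^ m * (1 + Real.log (1 / δ)) ^ m with hR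
  have hR0 : 0 < R := by positivity
  rcases eq_or_ne W ∞ with hWt | hWt
  · rw [hWt, ENNReal.mul_top]
    · exact le_top
    · refine mul_ne_zero (by rw [Ne, ENNReal.ofReal_eq_zero, not_le]; exact hR0) ?_
      exact (lt_of_lt_of_le one_pos hK).ne'
  rcases eq_or_ne W 0 with hW0 | hW0
  · have h1 : (fun y => ‖f y‖ₑ ^ n) =ᵐ[volume] 0 :=
      (lintegral_eq_zero_iff' (hf.enorm.pow_const n)).1 hW0
    have h2 : f =ᵐ[volume] fun _ => 0 := by
      filter_upwards [h1] with y hy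
      have : ‖f y‖ₑ ^ n = 0 := hy
      have h3 := (pow_eq_zero_iff (by omega)).1 this
      simpa using h3
    have h3 : ∀ e : EuclideanSpace ℝ (Fin n), kakeyaMax δ f e = 0 := by
      intro e
      rw [kakeyaMax_congr h2]
      simp [kakeyaMax]
    simp only [h3]
    rw [zero_pow (by omega), lintegral_zero]
    exact zero_le
  -- choice of J
  obtain ⟨J, hJ1, hJ2⟩ : ∃ J : ℕ, (1/2:ℝ) ^ J ≤ δ ∧ (J:ℝ) + 1 ≤ 3 * (1 + Real.log (1 / δ)) := by
    refine ⟨⌈Real.logb 2 (1 / δ)⌉₊, ?_, ?_⟩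
    · have h1 : Real.logb 2 (1 / δ) ≤ ⌈Real.logb 2 (1 / δ)⌉₊ := Nat.le_ceil _
      rw [Real.logb_le_iff_le_rpow (by norm_num) (by positivity), Real.rpow_natCast] at h1
      rw [div_le_iff₀ hδ] at h1
      set k := ⌈Real.logb 2 (1 / δ)⌉₊
      calc (1/2:ℝ) ^ k = (1/2:ℝ) ^ k * 1 := by ring
        _ ≤ (1/2:ℝ) ^ k * (2 ^ k * δ) := by gcongr
        _ = ((1/2:ℝ) ^ k * 2 ^ k) * δ := by ring
        _ = δ := by rw [← mul_pow]; norm_num
    · have h0 : 0 ≤ Real.logb 2 (1 / δ) := Real.logb_nonneg (by norm_num) (by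
        rw [le_div_iff₀ hδ]; linarith)
      have h1 := (Nat.ceil_lt_add_one h0).le
      have hlog2 : 2 / 3 < Real.log 2 := by
        have := Real.log_two_gt_d9
        linarith
      have h2 : Real.logb 2 (1 / δ) ≤ (3/2) * Real.log (1 / δ) := by
        rw [Real.logb, div_le_iff₀ (by linarith)]
        nlinarith
      linarith
  set w : ℝ := W.toReal with hw
  have hw0 : 0 < w := ENNReal.toReal_pos hW0 hWt
  have hWw : W = ENNReal.ofReal w := (ENNReal.ofReal_toReal hWt).symm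
  set F : ℝ := w ^ ((1:ℝ) / n) with hF
  have hF0 : 0 < F := by positivity
  have hFn : F ^ n = w := by
    rw [hF, ← Real.rpow_natCast, ← Real.rpow_mul hw0.le]
    have : (1:ℝ) / n * (n:ℕ) = 1 := by field_simp
    rw [this, Real.rpow_one]
  obtain ⟨g, hgm, hfg, hgs⟩ := regularize (ι := ℕ) hf (s := fun j => 2 ^ j * F)
    (fun j => by positivity) (fun j => hs _ (by positivity))
  have hWg : ∫⁻ y, ‖g y‖ₑ ^ n = W := by
    rw [hWdef]
    apply lintegral_congr_ae
    filter_upwards [hfg] with y hy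
    rw [hy]
  have h1 := crit_aux hn hm hc hvol hK hδ hJ1 hgm hF0 (by rw [hWg, hFn, hWw]) hgs
  simp only [kakeyaMax_congr hfg]
  refine h1.trans ?_
  rw [hFn, ← hWw]
  gcongr
  rw [hR]
  have h2 : ((J:ℝ) + 1) ^ m ≤ 3 ^ m * (1 + Real.log (1 / δ)) ^ m := by
    rw [← mul_pow]
    exact pow_le_pow_left₀ (by positivity) hJ2 m
  calc (Sg * (1 + 2 / c) ^ n + 2 * (2 ^ n * n)) * ((J:ℝ) + 1) ^ m
      ≤ C0 * (3 ^ m * (1 + Real.log (1 / δ)) ^ m) := by gcongr
    _ = _ := by ring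

/-- **Exponents `p > n`** for tubes and segments. -/
theorem strong' {n : ℕ} (hn : 1 ≤ n) {p : ℝ} (hp : (n:ℝ) < p) : ∃ C : ℝ, 0 < C ∧
    (∀ (K : ℝ≥0∞) (f : EuclideanSpace ℝ (Fin n) → ℝ), Measurable f →
      (∀ s : ℝ, 0 < s → StructAt K f s) →
      ∫⁻ e, Pool.Agent.W770.SA.segMaxF f (e : EuclideanSpace ℝ (Fin n)) ^ p ∂(surf n) ≤
        ENNReal.ofReal C * K * ∫⁻ y, ‖f y‖ₑ ^ p) ∧
    (∀ (K : ℝ≥0∞) (δ : ℝ) (f : EuclideanSpace ℝ (Fin n) → ℝ), 0 < δ → AEMeasurable f volume →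
      (∀ s : ℝ, 0 < s → StructAtAE K f s) →
      ∫⁻ e, kakeyaMax δ f (e : EuclideanSpace ℝ (Fin n)) ^ p ∂(surf n) ≤
        ENNReal.ofReal C * K * ∫⁻ y, ‖f y‖ₑ ^ p) := by
  obtain ⟨C, hC, h⟩ := strong hn hp
  have hp0 : 0 < p := lt_of_le_of_lt (Nat.cast_nonneg n) hp
  have h2p : (1:ℝ) ≤ 2 ^ p := Real.one_le_rpow (by norm_num) hp0.le
  refine ⟨2 ^ p * C, by positivity, ?_, ?_⟩
  · intro K f hf hs
    obtain ⟨M, hMm, hM, hMi⟩ := h K f hf (fun k => hs _ (by positivity))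
    refine (lintegral_mono fun e => ENNReal.rpow_le_rpow (hM e) hp0.le).trans (hMi.trans ?_)
    gcongr
    exact le_mul_of_one_le_left hC.le h2p
  · intro K δ f hδ hf hs
    obtain ⟨g, hgm, hfg, hgs⟩ := regularize (ι := ℤ) hf (s := fun k => (2:ℝ) ^ k)
      (fun k => by positivity) (fun k => hs _ (by positivity))
    obtain ⟨M, hMm, hM, hMi⟩ := h K g hgm hgs
    have hWg : ∫⁻ y, ‖g y‖ₑ ^ p = ∫⁻ y, ‖f y‖ₑ ^ p := by
      apply lintegral_congr_ae
      filter_upwards [hfg] with y hy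
      rw [hy]
    simp only [kakeyaMax_congr hfg]
    calc ∫⁻ e, kakeyaMax δ g (e : EuclideanSpace ℝ (Fin n)) ^ p ∂(surf n)
        ≤ ∫⁻ e, ENNReal.ofReal (2 ^ p) * M e ^ p ∂(surf n) := by
          apply lintegral_mono
          intro e
          have he : ‖(e : EuclideanSpace ℝ (Fin n))‖ = 1 := by simp
          have h3 := Pool.Agent.W770.SA.kakeyaMax_le hδ hgm.abs he
          calc kakeyaMax δ g (e : EuclideanSpace ℝ (Fin n)) ^ p
              ≤ (2 * Pool.Agent.W770.SA.segMaxF g (e : EuclideanSpace ℝ (Fin n))) ^ p :=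
                ENNReal.rpow_le_rpow h3 hp0.le
            _ ≤ (2 * M e) ^ p := ENNReal.rpow_le_rpow (mul_le_mul_right (hM e) _) hp0.le
            _ = ENNReal.ofReal (2 ^ p) * M e ^ p := by
                rw [ENNReal.mul_rpow_of_nonneg _ _ hp0.le, ← ENNReal.ofReal_rpow_of_pos (by norm_num)]
                simp
      _ = ENNReal.ofReal (2 ^ p) * ∫⁻ e, M e ^ p ∂(surf n) :=
          lintegral_const_mul _ (hMm.pow_const p)
      _ ≤ ENNReal.ofReal (2 ^ p) * (ENNReal.ofReal C * K * ∫⁻ y, ‖g y‖ₑ ^ p) := by gcongr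
      _ = _ := by
          rw [hWg, ENNReal.ofReal_mul (by positivity)]
          ring

end Pool.Agent.Q97.KD
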