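import Pool.Agent.Q97.KD.Cover

set_option autoImplicit false

/-!
Decompositions of functions into levels, indexed by the integers.
-/

open MeasureTheory Set Filter Topology ENNReal NNReal Metric
open scoped Pointwise

namespace Pool.Agent.Q97.KD

theorem tsum_int_split (a : ℤ → ℝ≥0∞) (m : ℤ) :
    ∑' k, a k = ∑' i : ℕ, a (m + 1 + i) + ∑' i : ℕ, a (m - i) := by
  rw [← (Equiv.addRight (m + 1)).tsum_eq a]
  rw [tsum_of_nat_of_neg_add_one ENNReal.summable ENNReal.summable]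
  congr 1
  · apply tsum_congr
    intro i
    simp only [Equiv.coe_addRight]
    congr 1; ring
  · apply tsum_congr
    intro i
    simp only [Equiv.coe_addRight]
    congr 1; ring

theorem tsum_geom_ofReal {c q : ℝ} (hc : 0 ≤ c) (hq : 0 ≤ q) (hq1 : q < 1) :
    ∑' i : ℕ, ENNReal.ofReal (c * q ^ i) = ENNReal.ofReal (c / (1 - q)) := by
  rw [← ENNReal.ofReal_tsum_of_nonneg (fun i => by positivity)
    ((summable_geometric_of_lt_one hq hq1).mul_left _), _root_.tsum_mul_left,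
    tsum_geometric_of_lt_one hq hq1]
  rfl

/-- the layers of a number with ratio `ρ` -/
theorem layersZ {ρ : ℝ} (hρ : 1 < ρ) {x : ℝ} :
    ENNReal.ofReal x ≤ ∑' k : ℤ, ENNReal.ofReal (ρ ^ (k + 1) - ρ ^ k) *
      {t : ℝ | t < x}.indicator 1 (ρ ^ k) := by
  rcases le_or_gt x 0 with hx | hx
  · rw [ENNReal.ofReal_of_nonpos hx]; exact zero_le
  have hρ0 : 0 < ρ := by linarith
  obtain ⟨m, hm1, hm2⟩ := exists_mem_Ioc_zpow hx hρ
  rw [tsum_int_split _ m]
  refine le_trans ?_ le_add_self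
  have h1 : ∀ i : ℕ, ENNReal.ofReal (ρ ^ (m - i + 1) - ρ ^ (m - (i:ℤ))) *
      {t : ℝ | t < x}.indicator (1 : ℝ → ℝ≥0∞) (ρ ^ (m - (i:ℤ))) =
      ENNReal.ofReal (ρ ^ (m + 1) * (1 - ρ⁻¹) * (ρ⁻¹) ^ i) := by
    intro i
    have hmem : ρ ^ (m - (i:ℤ)) ∈ {t : ℝ | t < x} := by
      refine lt_of_le_of_lt ?_ hm1
      exact zpow_le_zpow_right₀ hρ.le (by omega)
    rw [indicator_of_mem hmem, Pi.one_apply, mul_one]
    congr 1
    have e1 : ρ ^ (m - (i:ℤ)) = ρ ^ m * (ρ⁻¹) ^ i := by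
      rw [zpow_sub₀ hρ0.ne', zpow_natCast, inv_pow]; rfl
    have e2 : ρ ^ (m - (i:ℤ) + 1) = ρ ^ (m - (i:ℤ)) * ρ := zpow_add_one₀ hρ0.ne' _
    have e3 : ρ ^ (m + 1) = ρ ^ m * ρ := zpow_add_one₀ hρ0.ne' _
    rw [e2, e1, e3]
    field_simp
  simp only [h1]
  have hinv : ρ⁻¹ < 1 := inv_lt_one_of_one_lt₀ hρ
  rw [tsum_geom_ofReal (mul_nonneg (by positivity) (by linarith)) (by positivity) hinv]
  apply ENNReal.ofReal_le_ofReal
  rw [mul_div_assoc, div_self (by linarith : (1:ℝ) - ρ⁻¹ ≠ 0), mul_one]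
  exact hm2

theorem lintegral_layersZ {X : Type*} [MeasurableSpace X] (ν : Measure X) {g : X → ℝ}
    (hg : Measurable g) {ρ : ℝ} (hρ : 1 < ρ) :
    ∫⁻ x, ENNReal.ofReal (g x) ∂ν ≤ ∑' k : ℤ, ENNReal.ofReal (ρ ^ (k + 1) - ρ ^ k) *
      ν {x | ρ ^ k < g x} := by
  have hm : ∀ k : ℤ, MeasurableSet {x | ρ ^ k < g x} := fun k => measurableSet_lt measurable_const hg
  calc ∫⁻ x, ENNReal.ofReal (g x) ∂ν
      ≤ ∫⁻ x, ∑' k : ℤ, ENNReal.ofReal (ρ ^ (k + 1) - ρ ^ k) *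
        {x | ρ ^ k < g x}.indicator 1 x ∂ν := by
        apply lintegral_mono
        intro x
        refine (layersZ hρ).trans (le_of_eq ?_)
        apply tsum_congr
        intro k
        rfl
    _ = ∑' k : ℤ, ∫⁻ x, ENNReal.ofReal (ρ ^ (k + 1) - ρ ^ k) *
        {x | ρ ^ k < g x}.indicator 1 x ∂ν :=
        lintegral_tsum fun k => ((measurable_one.indicator (hm k)).const_mul _).aemeasurable
    _ = _ := by
        apply tsum_congr
        intro k
        rw [lintegral_const_mul _ (measurable_one.indicator (hm k)), lintegral_indicator_one (hm k)]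

/-- levels of a power -/
theorem levelsZ {p : ℝ} (hp : 1 ≤ p) (x : ℝ) :
    ∑' k : ℤ, ENNReal.ofReal (((2:ℝ) ^ k) ^ p) * {t : ℝ | t < x}.indicator 1 ((2:ℝ) ^ k) ≤
      2 * ENNReal.ofReal (x ^ p) := by
  have hp0 : 0 < p := by linarith
  rcases le_or_gt x 0 with hx | hx
  · have : ∀ k : ℤ, ENNReal.ofReal (((2:ℝ) ^ k) ^ p) *
        {t : ℝ | t < x}.indicator (1 : ℝ → ℝ≥0∞) ((2:ℝ) ^ k) = 0 := by
      intro k
      rw [indicator_of_notMem, mul_zero]
      intro h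
      have h' : (2:ℝ) ^ k < x := h
      have : (0:ℝ) < 2 ^ k := by positivity
      linarith
    simp [this]
  obtain ⟨m, hm1, hm2⟩ := exists_mem_Ioc_zpow hx (one_lt_two)
  rw [tsum_int_split _ m]
  have h0 : ∀ i : ℕ, ENNReal.ofReal (((2:ℝ) ^ (m + 1 + (i:ℤ))) ^ p) *
      {t : ℝ | t < x}.indicator (1 : ℝ → ℝ≥0∞) ((2:ℝ) ^ (m + 1 + (i:ℤ))) = 0 := by
    intro i
    rw [indicator_of_notMem, mul_zero]
    intro h
    have h' : (2:ℝ) ^ (m + 1 + (i:ℤ)) < x := h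
    have : (2:ℝ) ^ (m + 1) ≤ 2 ^ (m + 1 + (i:ℤ)) :=
      zpow_le_zpow_right₀ (by norm_num) (by omega)
    linarith
  simp only [h0, tsum_zero, zero_add]
  calc ∑' i : ℕ, ENNReal.ofReal (((2:ℝ) ^ (m - (i:ℤ))) ^ p) *
        {t : ℝ | t < x}.indicator (1 : ℝ → ℝ≥0∞) ((2:ℝ) ^ (m - (i:ℤ)))
      ≤ ∑' i : ℕ, ENNReal.ofReal (x ^ p * (1/2) ^ i) := by
        refine ENNReal.tsum_le_tsum fun i => ?_
        have e1 : (2:ℝ) ^ (m - (i:ℤ)) = 2 ^ m * (1/2) ^ i := by
          rw [zpow_sub₀ (by norm_num), zpow_natCast, one_div, inv_pow]; rfl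
        calc ENNReal.ofReal (((2:ℝ) ^ (m - (i:ℤ))) ^ p) *
            {t : ℝ | t < x}.indicator (1 : ℝ → ℝ≥0∞) ((2:ℝ) ^ (m - (i:ℤ)))
            ≤ ENNReal.ofReal (((2:ℝ) ^ (m - (i:ℤ))) ^ p) * 1 := by
              gcongr
              exact indicator_le_self _ _ _
          _ ≤ _ := by
              rw [mul_one]
              apply ENNReal.ofReal_le_ofReal
              rw [e1, Real.mul_rpow (by positivity) (by positivity)]
              have h2 : (((1:ℝ)/2) ^ i) ^ p ≤ (1/2) ^ i := by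
                calc (((1:ℝ)/2) ^ i) ^ p ≤ (((1:ℝ)/2) ^ i) ^ (1:ℝ) :=
                      Real.rpow_le_rpow_of_exponent_ge (by positivity)
                        (pow_le_one₀ (by norm_num) (by norm_num)) hp
                  _ = _ := Real.rpow_one _
              gcongr
    _ = 2 * ENNReal.ofReal (x ^ p) := by
        rw [tsum_geom_ofReal (by positivity) (by norm_num) (by norm_num)]
        rw [← ENNReal.ofReal_ofNat, ← ENNReal.ofReal_mul (by norm_num)]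
        congr 1
        ring

theorem lintegral_levelsZ {X : Type*} [MeasurableSpace X] (ν : Measure X) {g : X → ℝ}
    (hg : Measurable g) {p : ℝ} (hp : 1 ≤ p) :
    ∑' k : ℤ, ENNReal.ofReal (((2:ℝ) ^ k) ^ p) * ν {x | (2:ℝ) ^ k < g x} ≤
      2 * ∫⁻ x, ENNReal.ofReal (g x ^ p) ∂ν := by
  have hm : ∀ k : ℤ, MeasurableSet {x | (2:ℝ) ^ k < g x} :=
    fun k => measurableSet_lt measurable_const hg
  calc ∑' k : ℤ, ENNReal.ofReal (((2:ℝ) ^ k) ^ p) * ν {x | (2:ℝ) ^ k < g x}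
      = ∑' k : ℤ, ∫⁻ x, ENNReal.ofReal (((2:ℝ) ^ k) ^ p) *
        {x | (2:ℝ) ^ k < g x}.indicator 1 x ∂ν := by
        apply tsum_congr
        intro k
        rw [lintegral_const_mul _ (measurable_one.indicator (hm k)), lintegral_indicator_one (hm k)]
    _ = ∫⁻ x, ∑' k : ℤ, ENNReal.ofReal (((2:ℝ) ^ k) ^ p) *
        {x | (2:ℝ) ^ k < g x}.indicator 1 x ∂ν :=
        (lintegral_tsum fun k => ((measurable_one.indicator (hm k)).const_mul _).aemeasurable).symm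
    _ ≤ ∫⁻ x, 2 * ENNReal.ofReal (g x ^ p) ∂ν := by
        apply lintegral_mono
        intro x
        exact levelsZ hp (g x)
    _ = _ := lintegral_const_mul _ (hg.pow_const p).ennreal_ofReal

/-- **The pointwise inequality.** -/
theorem pointwise {n : ℕ} (hn : 1 ≤ n) {p : ℝ} (hp : (n:ℝ) < p) : ∃ C : ℝ, 0 < C ∧
    ∀ x : ℤ → ℝ≥0∞, (∀ k, x k ≤ 1) →
      (∑' k : ℤ, ENNReal.ofReal ((2:ℝ) ^ k) * x k) ^ p ≤
        ENNReal.ofReal C * ∑' k : ℤ, ENNReal.ofReal (((2:ℝ) ^ k) ^ p) * x k ^ n := by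
  have hn0 : (0:ℝ) < n := by exact_mod_cast hn
  have hp0 : 0 < p := hn0.trans hp
  set q : ℝ := (2:ℝ) ^ (1 - p / n) with hq
  have hq0 : 0 < q := by positivity
  have hq1 : q < 1 := by
    apply Real.rpow_lt_one_of_one_lt_of_neg (by norm_num)
    have : 1 < p / n := by rw [lt_div_iff₀ hn0]; linarith
    linarith
  have h1q : 0 < 1 - q := by linarith
  set B : ℝ := 2 * (1 / (1 - q) + 2) with hB
  have hB0 : 0 < B := by positivity
  refine ⟨B ^ p, by positivity, ?_⟩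
  intro x hx
  set W := ∑' k : ℤ, ENNReal.ofReal (((2:ℝ) ^ k) ^ p) * x k ^ n with hW
  rcases eq_or_ne W ∞ with hWt | hWt
  · rw [hWt, ENNReal.mul_top (by rw [Ne, ENNReal.ofReal_eq_zero, not_le]; positivity)]
    exact le_top
  rcases eq_or_ne W 0 with hW0 | hW0
  · have h1 : ∀ k, x k = 0 := by
      intro k
      have h2 := (ENNReal.tsum_eq_zero.1 hW0) k
      rcases mul_eq_zero.1 h2 with h3 | h3
      · rw [ENNReal.ofReal_eq_zero] at h3
        have : (0:ℝ) < ((2:ℝ) ^ k) ^ p := by positivity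
        linarith
      · exact pow_eq_zero_iff (by omega) |>.1 h3
    simp [h1, hp0]
  set w : ℝ := W.toReal with hw
  have hw0 : 0 < w := ENNReal.toReal_pos hW0 hWt
  have hWw : W = ENNReal.ofReal w := (ENNReal.ofReal_toReal hWt).symm
  set θ : ℝ := w ^ (1 / p) with hθ
  have hθ0 : 0 < θ := by positivity
  obtain ⟨m, hm1, hm2⟩ := exists_mem_Ico_zpow hθ0 (one_lt_two)
  -- bound of the terms
  have hterm : ∀ k : ℤ, ENNReal.ofReal ((2:ℝ) ^ k) * x k ≤
      ENNReal.ofReal ((2:ℝ) ^ k * (θ / 2 ^ k) ^ (p / n)) := by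
    intro k
    have h1 : ENNReal.ofReal (((2:ℝ) ^ k) ^ p) * x k ^ n ≤ ENNReal.ofReal w := by
      rw [← hWw]
      exact ENNReal.le_tsum k
    have h2k : (0:ℝ) < ((2:ℝ) ^ k) ^ p := by positivity
    have h2 : x k ^ n ≤ ENNReal.ofReal (w / ((2:ℝ) ^ k) ^ p) := by
      rw [ENNReal.ofReal_div_of_pos h2k]
      rw [ENNReal.le_div_iff_mul_le (Or.inl (by rw [Ne, ENNReal.ofReal_eq_zero, not_le]; exact h2k))
        (Or.inl ENNReal.ofReal_ne_top), mul_comm]
      exact h1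
    have h3 : x k ≤ ENNReal.ofReal ((θ / 2 ^ k) ^ (p / n)) := by
      calc x k = (x k ^ n) ^ (1 / (n:ℝ)) := by
            rw [← ENNReal.rpow_natCast, ← ENNReal.rpow_mul, mul_one_div, div_self hn0.ne',
              ENNReal.rpow_one]
        _ ≤ ENNReal.ofReal (w / ((2:ℝ) ^ k) ^ p) ^ (1 / (n:ℝ)) :=
            ENNReal.rpow_le_rpow h2 (by positivity)
        _ = _ := by
            rw [ENNReal.ofReal_rpow_of_pos (by positivity)]
            congr 1
            have e1 : w = θ ^ p := by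
              rw [hθ, ← Real.rpow_mul hw0.le, one_div, inv_mul_cancel₀ hp0.ne', Real.rpow_one]
            rw [e1, ← Real.div_rpow hθ0.le (by positivity), ← Real.rpow_mul (by positivity),
              mul_one_div]
    calc ENNReal.ofReal ((2:ℝ) ^ k) * x k ≤ ENNReal.ofReal ((2:ℝ) ^ k) *
          ENNReal.ofReal ((θ / 2 ^ k) ^ (p / n)) := by gcongr
      _ = _ := by rw [← ENNReal.ofReal_mul (by positivity)]
  have hlow : ∀ i : ℕ, ENNReal.ofReal ((2:ℝ) ^ (m - (i:ℤ))) * x (m - i) ≤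
      ENNReal.ofReal (2 ^ m * (1/2) ^ i) := by
    intro i
    have e1 : (2:ℝ) ^ (m - (i:ℤ)) = 2 ^ m * (1/2) ^ i := by
      rw [zpow_sub₀ (by norm_num), zpow_natCast, one_div, inv_pow]; rfl
    rw [← e1]
    calc ENNReal.ofReal ((2:ℝ) ^ (m - (i:ℤ))) * x (m - i) ≤ ENNReal.ofReal ((2:ℝ) ^ (m - (i:ℤ))) * 1 := by
          gcongr; exact hx _
      _ = _ := mul_one _
  have hhigh : ∀ i : ℕ, ENNReal.ofReal ((2:ℝ) ^ (m + 1 + (i:ℤ))) * x (m + 1 + i) ≤
      ENNReal.ofReal (2 ^ (m + 1) * q ^ i) := by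
    intro i
    refine (hterm _).trans (ENNReal.ofReal_le_ofReal ?_)
    have e1 : (2:ℝ) ^ (m + 1 + (i:ℤ)) = 2 ^ (m + 1) * 2 ^ i := by
      rw [zpow_add₀ (by norm_num), zpow_natCast]
    have h1 : θ / 2 ^ (m + 1 + (i:ℤ)) ≤ ((1:ℝ) / 2) ^ i := by
      rw [e1, div_le_iff₀ (by positivity)]
      calc θ ≤ 2 ^ (m + 1) := hm2.le
        _ = (1 / 2) ^ i * (2 ^ (m + 1) * 2 ^ i) := by
            rw [one_div, inv_pow]; field_simp
    calc (2:ℝ) ^ (m + 1 + (i:ℤ)) * (θ / 2 ^ (m + 1 + (i:ℤ))) ^ (p / n)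
        ≤ (2:ℝ) ^ (m + 1 + (i:ℤ)) * (((1:ℝ) / 2) ^ i) ^ (p / n) := by gcongr
      _ = 2 ^ (m + 1) * q ^ i := by
          rw [e1, hq, ← Real.rpow_natCast ((2:ℝ) ^ (1 - p / n)), ← Real.rpow_mul (by norm_num),
            ← Real.rpow_natCast ((1:ℝ) / 2), ← Real.rpow_mul (by norm_num), one_div,
            Real.inv_rpow (by norm_num), ← Real.rpow_neg (by norm_num), mul_assoc,
            ← Real.rpow_natCast (2:ℝ) i, ← Real.rpow_add (by norm_num)]
          congr 2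
          ring
  have hS : ∑' k : ℤ, ENNReal.ofReal ((2:ℝ) ^ k) * x k ≤ ENNReal.ofReal (B * θ) := by
    rw [tsum_int_split _ m]
    calc ∑' i : ℕ, ENNReal.ofReal ((2:ℝ) ^ (m + 1 + (i:ℤ))) * x (m + 1 + i) +
          ∑' i : ℕ, ENNReal.ofReal ((2:ℝ) ^ (m - (i:ℤ))) * x (m - i)
        ≤ ∑' i : ℕ, ENNReal.ofReal (2 ^ (m + 1) * q ^ i) +
          ∑' i : ℕ, ENNReal.ofReal (2 ^ m * (1/2) ^ i) :=
          add_le_add (ENNReal.tsum_le_tsum hhigh) (ENNReal.tsum_le_tsum hlow)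
      _ = ENNReal.ofReal (2 ^ (m + 1) / (1 - q) + 2 ^ m / (1 - 1/2)) := by
          rw [tsum_geom_ofReal (by positivity) hq0.le hq1,
            tsum_geom_ofReal (by positivity) (by norm_num) (by norm_num),
            ← ENNReal.ofReal_add (by positivity) (by positivity)]
      _ ≤ _ := by
          apply ENNReal.ofReal_le_ofReal
          have e2 : (2:ℝ) ^ (m + 1) = 2 ^ m * 2 := zpow_add_one₀ (by norm_num) _
          rw [e2, hB]
          have h3 : (2:ℝ) ^ m * 2 / (1 - q) + 2 ^ m / (1 - 1/2) = (2 * (1 / (1 - q) + 1)) * 2 ^ m := by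
            field_simp
            ring
          rw [h3]
          have h4 : (0:ℝ) < 2 ^ m := by positivity
          calc (2 * (1 / (1 - q) + 1)) * (2:ℝ) ^ m ≤ (2 * (1 / (1 - q) + 1)) * θ := by gcongr
            _ ≤ _ := by gcongr; norm_num
  calc (∑' k : ℤ, ENNReal.ofReal ((2:ℝ) ^ k) * x k) ^ p ≤ ENNReal.ofReal (B * θ) ^ p :=
        ENNReal.rpow_le_rpow hS hp0.le
    _ = ENNReal.ofReal (B ^ p) * W := by
        rw [hWw, ENNReal.ofReal_rpow_of_pos (by positivity), ← ENNReal.ofReal_mul (by positivity),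
          Real.mul_rpow hB0.le hθ0.le]
        congr 2
        rw [hθ, ← Real.rpow_mul hw0.le, one_div, inv_mul_cancel₀ hp0.ne', Real.rpow_one]

end Pool.Agent.Q97.KD
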