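import Mathlib

set_option autoImplicit false

/-!
The inequality `∫ (sup over lines of direction e of |A ∩ line|)^n dσ(e) ≤ n |A - A|`.
-/

open MeasureTheory Set Filter Topology ENNReal NNReal Metric
open scoped Pointwise

namespace Pool.Agent.Q97.KD

/-- The surface measure of the unit sphere. -/
noncomputable def surf (n : ℕ) : Measure (sphere (0 : EuclideanSpace ℝ (Fin n)) 1) :=
  (volume : Measure (EuclideanSpace ℝ (Fin n))).toSphere

/-- the weighted length of the part of the ray in `H` -/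
noncomputable def ray {n : ℕ} (H : Set (EuclideanSpace ℝ (Fin n)))
    (e : EuclideanSpace ℝ (Fin n)) : ℝ≥0∞ :=
  ∫⁻ r in Ioi (0:ℝ), ENNReal.ofReal (r ^ (n - 1)) * H.indicator 1 (r • e)

theorem meas_pow (n : ℕ) : Measurable (fun r : Ioi (0 : ℝ) => ENNReal.ofReal (r.1 ^ n)) :=
  (measurable_subtype_coe.pow_const _).ennreal_ofReal

theorem measurable_ray {n : ℕ} {H : Set (EuclideanSpace ℝ (Fin n))} (hH : MeasurableSet H) :
    Measurable (fun e : sphere (0 : EuclideanSpace ℝ (Fin n)) 1 =>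
      ray H (e : EuclideanSpace ℝ (Fin n))) := by
  unfold ray
  have h1 : Measurable (fun p : sphere (0 : EuclideanSpace ℝ (Fin n)) 1 × ℝ =>
      ENNReal.ofReal (p.2 ^ (n - 1)) * H.indicator (1 : EuclideanSpace ℝ (Fin n) → ℝ≥0∞) (p.2 • (p.1 : EuclideanSpace ℝ (Fin n)))) := by
    refine ((measurable_snd.pow_const _).ennreal_ofReal).mul ?_
    exact (measurable_one.indicator hH).comp
      (measurable_snd.smul (measurable_subtype_coe.comp measurable_fst))
  exact h1.lintegral_prod_right'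

theorem polar {n : ℕ} (hn : 1 ≤ n) {H : Set (EuclideanSpace ℝ (Fin n))} (hH : MeasurableSet H) :
    ∫⁻ e, ray H (e : EuclideanSpace ℝ (Fin n)) ∂(surf n) = volume H := by
  have : Nonempty (Fin n) := ⟨⟨0, hn⟩⟩
  have : Nontrivial (EuclideanSpace ℝ (Fin n)) := inferInstance
  have mp := (volume : Measure (EuclideanSpace ℝ (Fin n))).measurePreserving_homeomorphUnitSphereProd
  rw [finrank_euclideanSpace_fin] at mp
  set F : sphere (0 : EuclideanSpace ℝ (Fin n)) 1 × Ioi (0 : ℝ) → ℝ≥0∞ := fun p =>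
    H.indicator 1 ((p.2 : ℝ) • (p.1 : EuclideanSpace ℝ (Fin n))) with hF
  have hFm : Measurable F := by
    refine (measurable_one.indicator hH).comp ?_
    exact (measurable_subtype_coe.comp measurable_snd).smul
      (measurable_subtype_coe.comp measurable_fst)
  have h1 := mp.lintegral_comp hFm
  have h2 : ∀ x, F (homeomorphUnitSphereProd (EuclideanSpace ℝ (Fin n)) x) = H.indicator 1 (x : EuclideanSpace ℝ (Fin n)) := by
    intro x
    have : (((homeomorphUnitSphereProd (EuclideanSpace ℝ (Fin n))).symm (homeomorphUnitSphereProd (EuclideanSpace ℝ (Fin n)) x)) : EuclideanSpace ℝ (Fin n)) = x := by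
      rw [Homeomorph.symm_apply_apply]
    rw [homeomorphUnitSphereProd_symm_apply_coe] at this
    simp only [hF]
    rw [this]
  simp only [h2] at h1
  rw [lintegral_subtype_comap (measurableSet_singleton _).compl (fun y => H.indicator (1 : EuclideanSpace ℝ (Fin n) → ℝ≥0∞) y),
    restrict_compl_singleton, lintegral_indicator_one hH] at h1
  rw [h1, lintegral_prod _ hFm.aemeasurable]
  unfold surf
  congr 1
  ext e
  unfold Measure.volumeIoiPow ray
  have hFe : Measurable (fun y : Ioi (0:ℝ) => F (e, y)) := hFm.comp measurable_prodMk_left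
  rw [lintegral_withDensity_eq_lintegral_mul _ (meas_pow _) hFe]
  rw [← lintegral_subtype_comap measurableSet_Ioi]
  rfl

/-- bathtub principle -/
theorem bathtub_fin {n : ℕ} (hn : 1 ≤ n) {R : Set ℝ} (hR : MeasurableSet R) (hR0 : R ⊆ Ioi 0)
    (hfin : volume R ≠ ∞) :
    volume R ^ n ≤ n * ∫⁻ r in R, ENNReal.ofReal (r ^ (n - 1)) := by
  obtain ⟨m, rfl⟩ : ∃ m, n = m + 1 := ⟨n - 1, by omega⟩
  simp only [Nat.add_sub_cancel]
  set l : ℝ := (volume R).toReal with hl
  have hl0 : 0 ≤ l := ENNReal.toReal_nonneg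
  have hvol : volume R = ENNReal.ofReal l := (ENNReal.ofReal_toReal hfin).symm
  set w : ℝ → ℝ≥0∞ := fun r => ENNReal.ofReal (r ^ m) with hw
  have hI : ∫⁻ r in Ioc 0 l, w r = ENNReal.ofReal (l ^ (m + 1) / (m + 1)) := by
    rw [hw]
    rw [← ofReal_integral_eq_lintegral_ofReal]
    · rw [← intervalIntegral.integral_of_le hl0, integral_pow]
      simp
    · exact (intervalIntegral.intervalIntegrable_pow m).1
    · filter_upwards [ae_restrict_mem measurableSet_Ioc] with y hy
      exact pow_nonneg hy.1.le _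
  have h1 : ∫⁻ r in Ioc 0 l, w r ≤ ∫⁻ r in R, w r := by
    have hsplit1 : ∫⁻ r in Ioc 0 l, w r = (∫⁻ r in Ioc 0 l ∩ R, w r) + ∫⁻ r in Ioc 0 l \ R, w r :=
      (lintegral_inter_add_sdiff (μ := volume) w (Ioc 0 l) hR).symm
    have hsplit2 : ∫⁻ r in R, w r = (∫⁻ r in R ∩ Ioc 0 l, w r) + ∫⁻ r in R \ Ioc 0 l, w r :=
      (lintegral_inter_add_sdiff (μ := volume) w R measurableSet_Ioc).symm
    rw [hsplit1, hsplit2, inter_comm]
    refine add_le_add le_rfl ?_
    have hmeas : volume (Ioc 0 l \ R) = volume (R \ Ioc 0 l) := by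
      have e1 : volume (Ioc 0 l ∩ R) + volume (Ioc 0 l \ R) = volume (Ioc 0 l) :=
        measure_inter_add_sdiff _ hR
      have e2 : volume (R ∩ Ioc 0 l) + volume (R \ Ioc 0 l) = volume R :=
        measure_inter_add_sdiff _ measurableSet_Ioc
      have e3 : volume (Ioc 0 l) = volume R := by
        rw [Real.volume_Ioc, sub_zero, hvol]
      have e4 : volume (Ioc 0 l ∩ R) ≠ ∞ := ((measure_mono inter_subset_right).trans_lt hfin.lt_top).ne
      rw [e3, ← e2, inter_comm] at e1
      rw [inter_comm] at e4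
      exact (ENNReal.add_right_inj e4).1 e1
    calc ∫⁻ r in Ioc 0 l \ R, w r ≤ ∫⁻ r in Ioc 0 l \ R, ENNReal.ofReal (l ^ m) := by
          apply setLIntegral_mono' (measurableSet_Ioc.diff hR)
          intro r hr
          exact ENNReal.ofReal_le_ofReal (pow_le_pow_left₀ hr.1.1.le hr.1.2 m)
      _ = ENNReal.ofReal (l ^ m) * volume (R \ Ioc 0 l) := by
          rw [setLIntegral_const, hmeas]
      _ = ∫⁻ r in R \ Ioc 0 l, ENNReal.ofReal (l ^ m) := by rw [setLIntegral_const]
      _ ≤ ∫⁻ r in R \ Ioc 0 l, w r := by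
          apply setLIntegral_mono' (hR.diff measurableSet_Ioc)
          intro r hr
          have h2 : 0 < r := hR0 hr.1
          have h3 : l < r := by
            by_contra hc
            push Not at hc
            exact hr.2 ⟨h2, hc⟩
          exact ENNReal.ofReal_le_ofReal (pow_le_pow_left₀ hl0 h3.le m)
  calc volume R ^ (m + 1) = ((m + 1 : ℕ) : ℝ≥0∞) * ENNReal.ofReal (l ^ (m + 1) / (m + 1)) := by
        rw [hvol, ← ENNReal.ofReal_pow hl0, ← ENNReal.ofReal_natCast,
          ← ENNReal.ofReal_mul (by positivity)]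
        congr 1
        push_cast
        field_simp
    _ ≤ _ := by
        rw [← hI]
        gcongr

theorem bathtub {n : ℕ} (hn : 1 ≤ n) {R : Set ℝ} (hR : MeasurableSet R) (hR0 : R ⊆ Ioi 0) :
    volume R ^ n ≤ n * ∫⁻ r in R, ENNReal.ofReal (r ^ (n - 1)) := by
  have h1 : ∀ k : ℕ, volume (R ∩ Iic (k : ℝ)) ^ n ≤ n * ∫⁻ r in R, ENNReal.ofReal (r ^ (n - 1)) := by
    intro k
    have hsub : R ∩ Iic (k : ℝ) ⊆ Ioc 0 (k : ℝ) := fun r hr => ⟨hR0 hr.1, hr.2⟩
    refine (bathtub_fin hn (hR.inter measurableSet_Iic) (inter_subset_left.trans hR0)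
      ((measure_mono hsub).trans_lt measure_Ioc_lt_top).ne).trans ?_
    gcongr
    exact inter_subset_left
  have hmono : Monotone (fun k : ℕ => R ∩ Iic (k : ℝ)) := by
    intro a b hab
    apply inter_subset_inter_right
    apply Iic_subset_Iic.2
    exact_mod_cast hab
  have hU : ⋃ k : ℕ, R ∩ Iic (k : ℝ) = R := by
    rw [← inter_iUnion]
    apply inter_eq_left.2
    intro r _
    obtain ⟨k, hk⟩ := exists_nat_ge r
    exact mem_iUnion.2 ⟨k, hk⟩
  have hlim := tendsto_measure_iUnion_atTop (μ := (volume : Measure ℝ)) hmono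
  rw [hU] at hlim
  have hlim2 : Tendsto (fun k : ℕ => volume (R ∩ Iic (k : ℝ)) ^ n) atTop (𝓝 (volume R ^ n)) :=
    (ENNReal.continuous_pow n).continuousAt.tendsto.comp hlim
  exact le_of_tendsto' hlim2 h1

/-- the part of a line in `A` is at most as long as the part of the parallel ray in `A - A` -/
theorem line_le {n : ℕ} {A H : Set (EuclideanSpace ℝ (Fin n))} (hH : A - A ⊆ H)
    (z e : EuclideanSpace ℝ (Fin n)) :
    volume {s : ℝ | z + s • e ∈ A} ≤ volume ({r : ℝ | r • e ∈ H} ∩ Ioi 0) := by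
  set X : Set ℝ := {s : ℝ | z + s • e ∈ A} with hX
  set Y : Set ℝ := {r : ℝ | r • e ∈ H} ∩ Ioi 0 with hY
  have h1 : ∀ s₀ ∈ X, volume (X ∩ Ioi s₀) ≤ volume Y := by
    intro s₀ hs₀
    have h2 : (fun s => s + (-s₀)) ⁻¹' Y ⊇ X ∩ Ioi s₀ := by
      rintro s ⟨hs, hs'⟩
      have hs'' : s₀ < s := hs'
      refine ⟨hH ?_, ?_⟩
      · show (s + -s₀) • e ∈ A - A
        have : (s + -s₀) • e = (z + s • e) - (z + s₀ • e) := by
          rw [add_smul, neg_smul]; abel
        rw [this]
        exact sub_mem_sub hs hs₀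
      · show 0 < s + -s₀
        linarith
    refine (measure_mono h2).trans (le_of_eq ?_)
    exact measure_preimage_add_right volume _ _
  by_cases hbd : BddBelow X
  · rcases X.eq_empty_or_nonempty with hemp | hne
    · rw [hemp]; simp
    · refine ENNReal.le_of_forall_pos_le_add fun ε hε _ => ?_
      obtain ⟨s₀, hs₀, hlt⟩ := exists_lt_of_csInf_lt hne (lt_add_of_pos_right (sInf X)
        (show (0:ℝ) < ε from hε))
      have hsub : X ⊆ (X ∩ Ioi s₀) ∪ Icc (sInf X) s₀ := by
        intro s hs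
        rcases lt_or_ge s₀ s with h | h
        · exact Or.inl ⟨hs, h⟩
        · exact Or.inr ⟨csInf_le hbd hs, h⟩
      calc volume X ≤ volume (X ∩ Ioi s₀) + volume (Icc (sInf X) s₀) :=
            (measure_mono hsub).trans (measure_union_le _ _)
        _ ≤ volume Y + ε := by
            refine add_le_add (h1 s₀ hs₀) ?_
            rw [Real.volume_Icc]
            have : s₀ - sInf X ≤ ε := by linarith
            exact (ENNReal.ofReal_le_ofReal this).trans (le_of_eq (ENNReal.ofReal_coe_nnreal))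
  · have h3 : ∀ k : ℕ, volume (X ∩ Ioi (-(k:ℝ))) ≤ volume Y := by
      intro k
      obtain ⟨s₀, hs₀, hlt⟩ := not_bddBelow_iff.1 hbd (-(k:ℝ))
      exact (measure_mono (inter_subset_inter_right _ (Ioi_subset_Ioi hlt.le))).trans (h1 s₀ hs₀)
    have hmono : Monotone (fun k : ℕ => X ∩ Ioi (-(k:ℝ))) := by
      intro a b hab
      apply inter_subset_inter_right
      apply Ioi_subset_Ioi
      have : (a:ℝ) ≤ b := by exact_mod_cast hab
      linarith
    have hU : ⋃ k : ℕ, X ∩ Ioi (-(k:ℝ)) = X := by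
      rw [← inter_iUnion]
      apply inter_eq_left.2
      intro r _
      obtain ⟨k, hk⟩ := exists_nat_gt (-r)
      exact mem_iUnion.2 ⟨k, by show -(k:ℝ) < r; linarith⟩
    have hlim := tendsto_measure_iUnion_atTop (μ := (volume : Measure ℝ)) hmono
    rw [hU] at hlim
    exact le_of_tendsto' hlim h3

/-- the length of the longest part in `A` of a line of direction `e` -/
noncomputable def lineLength {n : ℕ} (A : Set (EuclideanSpace ℝ (Fin n)))
    (e : EuclideanSpace ℝ (Fin n)) : ℝ≥0∞ :=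
  ⨆ z : EuclideanSpace ℝ (Fin n), volume {s : ℝ | z + s • e ∈ A}

theorem lineLength_pow_le {n : ℕ} (hn : 1 ≤ n) {A H : Set (EuclideanSpace ℝ (Fin n))} (hH : A - A ⊆ H)
    (hHm : MeasurableSet H) (e : EuclideanSpace ℝ (Fin n)) :
    lineLength A e ^ n ≤ n * ray H e := by
  have hR : MeasurableSet {r : ℝ | r • e ∈ H} :=
    hHm.preimage (by fun_prop : Measurable fun r : ℝ => r • e)
  have h1 : lineLength A e ≤ volume ({r : ℝ | r • e ∈ H} ∩ Ioi 0) := iSup_le fun z => line_le hH z e
  refine (pow_le_pow_left₀ zero_le h1 n).trans ?_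
  refine (bathtub hn (hR.inter measurableSet_Ioi) inter_subset_right).trans ?_
  refine mul_le_mul_right (le_of_eq ?_) _
  unfold ray
  rw [← Measure.restrict_restrict hR, ← lintegral_indicator hR]
  congr 1
  ext r
  by_cases h : r • e ∈ H
  · rw [indicator_of_mem (show r ∈ {r : ℝ | r • e ∈ H} from h), indicator_of_mem h, Pi.one_apply, mul_one]
  · rw [indicator_of_notMem (show r ∉ {r : ℝ | r • e ∈ H} from h), indicator_of_notMem h, mul_zero]

/-- **The difference set inequality**: a measurable majorant. -/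
theorem exists_majorant {n : ℕ} (hn : 1 ≤ n) (A : Set (EuclideanSpace ℝ (Fin n))) :
    ∃ g : sphere (0 : EuclideanSpace ℝ (Fin n)) 1 → ℝ≥0∞, Measurable g ∧
      (∀ e : sphere (0 : EuclideanSpace ℝ (Fin n)) 1, lineLength A (e : EuclideanSpace ℝ (Fin n)) ≤ g e) ∧
      ∫⁻ e, g e ^ n ∂(surf n) = n * volume (A - A) := by
  set H := toMeasurable volume (A - A) with hHdef
  have hHm : MeasurableSet H := measurableSet_toMeasurable _ _
  have hn0 : (n:ℝ) ≠ 0 := by exact_mod_cast (by omega : n ≠ 0)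
  refine ⟨fun e => (n * ray H (e : EuclideanSpace ℝ (Fin n))) ^ (1 / (n:ℝ)),
    ((measurable_ray hHm).const_mul _).pow_const _, ?_, ?_⟩
  · intro e
    have h := lineLength_pow_le hn (subset_toMeasurable volume (A - A)) hHm (e : EuclideanSpace ℝ (Fin n))
    calc lineLength A (e : EuclideanSpace ℝ (Fin n)) =
        (lineLength A (e : EuclideanSpace ℝ (Fin n)) ^ n) ^ (1 / (n:ℝ)) := by
          rw [← ENNReal.rpow_natCast, ← ENNReal.rpow_mul, mul_one_div, div_self hn0, ENNReal.rpow_one]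
      _ ≤ _ := ENNReal.rpow_le_rpow h (by positivity)
  · have h1 : ∀ e : sphere (0 : EuclideanSpace ℝ (Fin n)) 1,
        ((n * ray H (e : EuclideanSpace ℝ (Fin n))) ^ (1 / (n:ℝ))) ^ n =
        n * ray H (e : EuclideanSpace ℝ (Fin n)) := by
      intro e
      rw [← ENNReal.rpow_natCast, ← ENNReal.rpow_mul, one_div, inv_mul_cancel₀ hn0, ENNReal.rpow_one]
    simp only [h1]
    rw [lintegral_const_mul _ (measurable_ray hHm), polar hn hHm, hHdef, measure_toMeasurable]

end Pool.Agent.Q97.KD
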