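import Pool.Agent.Q97.KD.Layers
import Pool.Agent.W770.SA.TubeF

set_option autoImplicit false

/-!
Functions whose superlevel sets are covered by sets with small difference sets.
-/

open MeasureTheory Set Filter Topology ENNReal NNReal Metric
open scoped Pointwise

namespace Pool.Agent.Q97.KD

/-- structure at the level `s` -/
def StructAt {n : ℕ} (K : ℝ≥0∞) (f : EuclideanSpace ℝ (Fin n) → ℝ) (s : ℝ) : Prop :=
  ∃ A : ℕ → Set (EuclideanSpace ℝ (Fin n)), {y | s < |f y|} ⊆ ⋃ j, A j ∧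
    diffSum A ^ n ≤ K * volume {y | s < |f y|}

/-- structure at the level `s` up to null sets -/
def StructAtAE {n : ℕ} (K : ℝ≥0∞) (f : EuclideanSpace ℝ (Fin n) → ℝ) (s : ℝ) : Prop :=
  ∃ A : ℕ → Set (EuclideanSpace ℝ (Fin n)), (∀ᵐ y, s < |f y| → ∃ j, y ∈ A j) ∧
    diffSum A ^ n ≤ K * volume {y | s < |f y|}

/-- regularisation -/
theorem regularize {n : ℕ} {ι : Type} [Countable ι] {K : ℝ≥0∞} {f : EuclideanSpace ℝ (Fin n) → ℝ}
    (hf : AEMeasurable f volume) {s : ι → ℝ} (hs : ∀ k, 0 < s k) (h : ∀ k, StructAtAE K f (s k)) :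
    ∃ g : EuclideanSpace ℝ (Fin n) → ℝ, Measurable g ∧ f =ᵐ[volume] g ∧ ∀ k, StructAt K g (s k) := by
  classical
  choose A hA hK using h
  set f1 := hf.mk f with hf1
  have h1 : f =ᵐ[volume] f1 := hf.ae_eq_mk
  set N : Set (EuclideanSpace ℝ (Fin n)) := ⋃ k, {y | s k < |f1 y| ∧ ¬ ∃ j, y ∈ A k j} with hN
  have hN0 : volume N = 0 := by
    rw [hN, measure_iUnion_null_iff]
    intro k
    rw [← nonpos_iff_eq_zero]
    have h2 : ∀ᵐ y, ¬ (s k < |f1 y| ∧ ¬ ∃ j, y ∈ A k j) := by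
      filter_upwards [hA k, h1] with y hy1 hy2
      rintro ⟨hy3, hy4⟩
      rw [← hy2] at hy3
      exact hy4 (hy1 hy3)
    rw [ae_iff] at h2
    simp only [not_not] at h2
    exact h2.le
  set M := toMeasurable volume N with hM
  have hM0 : volume M = 0 := by rw [hM, measure_toMeasurable, hN0]
  have hMm : MeasurableSet M := measurableSet_toMeasurable _ _
  refine ⟨Mᶜ.indicator f1, hf.measurable_mk.indicator hMm.compl, ?_, ?_⟩
  · have h3 : ∀ᵐ y, y ∉ M := by
      rw [ae_iff]; simpa using hM0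
    filter_upwards [h1, h3] with y hy1 hy3
    rw [hy1, indicator_of_mem (show y ∈ Mᶜ from hy3)]
  · intro k
    refine ⟨A k, ?_, ?_⟩
    · intro y hy
      have hy' : s k < |Mᶜ.indicator f1 y| := hy
      have hyM : y ∉ M := by
        intro hc
        rw [indicator_of_notMem (show y ∉ Mᶜ from fun h => h hc), abs_zero] at hy'
        exact absurd hy' (not_lt.2 (hs k).le)
      rw [indicator_of_mem (show y ∈ Mᶜ from hyM)] at hy'
      by_contra hno
      simp only [mem_iUnion] at hno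
      exact hyM (subset_toMeasurable _ _ (mem_iUnion.2 ⟨k, hy', hno⟩))
    · have h4 : volume {y | s k < |Mᶜ.indicator f1 y|} = volume {y | s k < |f y|} := by
        apply measure_congr
        have h3 : ∀ᵐ y, y ∉ M := by
          rw [ae_iff]; simpa using hM0
        filter_upwards [h1, h3] with y hy1 hy3
        apply propext
        show s k < |Mᶜ.indicator f1 y| ↔ s k < |f y|
        rw [hy1, indicator_of_mem (show y ∈ Mᶜ from hy3)]
      rw [h4]
      exact hK k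

/-- the majorant at a level -/
theorem level_majorant {n : ℕ} (hn : 1 ≤ n) {K : ℝ≥0∞} {f : EuclideanSpace ℝ (Fin n) → ℝ} {s : ℝ}
    (h : StructAt K f s) :
    ∃ g : sphere (0 : EuclideanSpace ℝ (Fin n)) 1 → ℝ≥0∞, Measurable g ∧
      (∀ e : sphere (0 : EuclideanSpace ℝ (Fin n)) 1,
        lineLength {y | s < |f y|} (e : EuclideanSpace ℝ (Fin n)) ≤ g e) ∧
      ∫⁻ e, g e ^ n ∂(surf n) ≤ n * K * volume {y | s < |f y|} := by
  obtain ⟨A, hA, hK⟩ := h
  obtain ⟨g, hgm, hg, hgi⟩ := cover_majorant hn A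
  refine ⟨g, hgm, fun e => (lineLength_mono hA _).trans (hg e), hgi.trans ?_⟩
  rw [mul_assoc]
  gcongr

/-- the largest integral of `|f|` over a line of direction `e` -/
noncomputable def lineMax {n : ℕ} (f : EuclideanSpace ℝ (Fin n) → ℝ)
    (e : EuclideanSpace ℝ (Fin n)) : ℝ≥0∞ :=
  ⨆ z : EuclideanSpace ℝ (Fin n), ∫⁻ s : ℝ, ‖f (z + s • e)‖ₑ

theorem lineMax_le {n : ℕ} {f : EuclideanSpace ℝ (Fin n) → ℝ} (hf : Measurable f) {ρ : ℝ}
    (hρ : 1 < ρ) (e : EuclideanSpace ℝ (Fin n)) :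
    lineMax f e ≤ ∑' k : ℤ, ENNReal.ofReal (ρ ^ (k + 1) - ρ ^ k) *
      lineLength {y | ρ ^ k < |f y|} e := by
  apply iSup_le
  intro z
  have hc : Measurable (fun s : ℝ => |f (z + s • e)|) :=
    (hf.comp (by fun_prop : Measurable (fun s : ℝ => z + s • e))).abs
  have h1 := lintegral_layersZ volume hc hρ
  simp only [Pool.Agent.W770.SA.enorm_eq]
  refine h1.trans (ENNReal.tsum_le_tsum fun k => ?_)
  refine mul_le_mul_right ?_ _
  exact le_iSup (fun z : EuclideanSpace ℝ (Fin n) =>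
    volume {s : ℝ | z + s • e ∈ {y | ρ ^ k < |f y|}}) z

theorem segMaxF_leZ {n : ℕ} {f : EuclideanSpace ℝ (Fin n) → ℝ} (hf : Measurable f)
    (e : EuclideanSpace ℝ (Fin n)) :
    Pool.Agent.W770.SA.segMaxF f e ≤ ∑' k : ℤ, ENNReal.ofReal ((2:ℝ) ^ k) *
      min 1 (lineLength {y | (2:ℝ) ^ k < |f y|} e) := by
  apply iSup_le
  intro z
  have hc : Measurable (fun s : ℝ => |f (z + s • e)|) :=
    (hf.comp (by fun_prop : Measurable (fun s : ℝ => z + s • e))).abs
  have h1 := lintegral_layersZ (volume.restrict (Icc (0:ℝ) 1)) hc one_lt_two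
  simp only [Pool.Agent.W770.SA.enorm_eq]
  refine h1.trans (ENNReal.tsum_le_tsum fun k => ?_)
  have e2 : (2:ℝ) ^ (k + 1) - 2 ^ k = 2 ^ k := by
    rw [zpow_add_one₀ (by norm_num)]; ring
  rw [e2]
  refine mul_le_mul_right (le_min ?_ ?_) _
  · refine (measure_mono (subset_univ _)).trans ?_
    rw [Measure.restrict_apply_univ, Real.volume_Icc]
    simp
  · refine (Measure.restrict_apply_le _ _).trans ?_
    exact le_iSup (fun z : EuclideanSpace ℝ (Fin n) =>
      volume {s : ℝ | z + s • e ∈ {y | (2:ℝ) ^ k < |f y|}}) z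

theorem minkZ {X : Type*} [MeasurableSpace X] (μ : Measure X) {p : ℝ} (hp : 1 ≤ p)
    {g : ℤ → X → ℝ≥0∞} (hg : ∀ j, Measurable (g j)) :
    ∫⁻ x, (∑' j, g j x) ^ p ∂μ ≤ (∑' j, (∫⁻ x, g j x ^ p ∂μ) ^ (1 / p)) ^ p := by
  have h := mink μ hp (g := fun j : ℕ => g ((Denumerable.eqv ℤ).symm j)) (fun j => hg _)
  have h1 : ∀ x, ∑' j : ℕ, g ((Denumerable.eqv ℤ).symm j) x = ∑' j, g j x := fun x =>
    (Denumerable.eqv ℤ).symm.tsum_eq (fun j => g j x)
  simp only [h1] at h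
  refine h.trans (le_of_eq ?_)
  congr 1
  exact (Denumerable.eqv ℤ).symm.tsum_eq (fun j => (∫⁻ x, g j x ^ p ∂μ) ^ (1 / p))

/-- levels and the Lorentz norm -/
theorem sum_levels_le_lorentz {X : Type*} [MeasurableSpace X] (μ : Measure X) {g : X → ℝ}
    {a : ℝ} (ha : 0 ≤ a) {ρ : ℝ} (hρ : 1 < ρ) :
    ∑' k : ℤ, ENNReal.ofReal (ρ ^ (k + 1) - ρ ^ k) * μ {x | ρ ^ k < g x} ^ a ≤
      ENNReal.ofReal ρ * ∫⁻ s in Ioi (0:ℝ), μ {x | s < g x} ^ a := by
  have hρ0 : 0 < ρ := by linarith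
  set F : ℝ → ℝ≥0∞ := fun s => μ {x | s < g x} ^ a with hF
  have hanti : Antitone F := by
    intro s t hst
    apply ENNReal.rpow_le_rpow _ ha
    apply measure_mono
    intro x hx
    exact lt_of_le_of_lt hst hx
  have h1 : ∀ k : ℤ, ENNReal.ofReal (ρ ^ (k + 1) - ρ ^ k) * F (ρ ^ k) ≤
      ENNReal.ofReal ρ * ∫⁻ s in Ioc (ρ ^ (k - 1)) (ρ ^ k), F s := by
    intro k
    calc ENNReal.ofReal (ρ ^ (k + 1) - ρ ^ k) * F (ρ ^ k)
        = ENNReal.ofReal ρ * (∫⁻ _s in Ioc (ρ ^ (k - 1)) (ρ ^ k), F (ρ ^ k)) := by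
          rw [setLIntegral_const, Real.volume_Ioc, mul_comm (F _), ← mul_assoc,
            ← ENNReal.ofReal_mul hρ0.le]
          congr 2
          rw [mul_sub, mul_comm ρ (ρ ^ k), ← zpow_add_one₀ hρ0.ne', mul_comm ρ (ρ ^ (k - 1)),
            ← zpow_add_one₀ hρ0.ne']
          congr 2
          ring
      _ ≤ _ := by
          refine mul_le_mul_right ?_ _
          apply setLIntegral_mono' measurableSet_Ioc
          intro s hs
          exact hanti hs.2
  calc ∑' k : ℤ, ENNReal.ofReal (ρ ^ (k + 1) - ρ ^ k) * F (ρ ^ k)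
      ≤ ∑' k : ℤ, ENNReal.ofReal ρ * ∫⁻ s in Ioc (ρ ^ (k - 1)) (ρ ^ k), F s :=
        ENNReal.tsum_le_tsum h1
    _ = ENNReal.ofReal ρ * ∑' k : ℤ, ∫⁻ s in Ioc (ρ ^ (k - 1)) (ρ ^ k), F s :=
        ENNReal.tsum_mul_left
    _ = ENNReal.ofReal ρ * ∫⁻ s in ⋃ k : ℤ, Ioc (ρ ^ (k - 1)) (ρ ^ k), F s := by
        congr 1
        rw [lintegral_iUnion (fun k => measurableSet_Ioc)]
        intro i j hij
        wlog hlt : i < j generalizing i j
        · exact (this hij.symm (lt_of_le_of_ne (not_lt.1 hlt) hij.symm)).symm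
        rw [Function.onFun, Set.disjoint_left]
        intro s hs1 hs2
        have h3 : ρ ^ i ≤ ρ ^ (j - 1) := zpow_le_zpow_right₀ hρ.le (by omega)
        linarith [hs1.2, hs2.1]
    _ ≤ _ := by
        refine mul_le_mul_right ?_ _
        apply lintegral_mono_set
        apply iUnion_subset
        intro k s hs
        exact lt_trans (by positivity) hs.1

/-- **The X-ray endpoint.** -/
theorem xray {n : ℕ} (hn : 1 ≤ n) {K : ℝ≥0∞} {f : EuclideanSpace ℝ (Fin n) → ℝ} (hf : Measurable f)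
    (hs : ∀ s : ℝ, 0 < s → StructAt K f s) :
    ∫⁻ e, lineMax f (e : EuclideanSpace ℝ (Fin n)) ^ n ∂(surf n) ≤
      n * K * (∫⁻ s in Ioi (0:ℝ), volume {y | s < |f y|} ^ (1 / (n:ℝ))) ^ n := by
  have hn1 : (1:ℝ) ≤ n := by exact_mod_cast hn
  have hn0 : (0:ℝ) < n := by linarith
  set I := ∫⁻ s in Ioi (0:ℝ), volume {y | s < |f y|} ^ (1 / (n:ℝ)) with hI
  have key : ∀ ρ : ℝ, 1 < ρ → ∫⁻ e, lineMax f (e : EuclideanSpace ℝ (Fin n)) ^ n ∂(surf n) ≤
      (n * K * I ^ n) * ENNReal.ofReal (ρ ^ n) := by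
    intro ρ hρ
    have hρ0 : 0 < ρ := by linarith
    choose g hgm hg hgi using fun k : ℤ => level_majorant hn (hs (ρ ^ k) (by positivity))
    set c : ℤ → ℝ≥0∞ := fun k => ENNReal.ofReal (ρ ^ (k + 1) - ρ ^ k) with hc
    have h1 : ∀ e : sphere (0 : EuclideanSpace ℝ (Fin n)) 1,
        lineMax f (e : EuclideanSpace ℝ (Fin n)) ≤ ∑' k, c k * g k e := fun e =>
      (lineMax_le hf hρ _).trans (ENNReal.tsum_le_tsum fun k => mul_le_mul_right (hg k e) _)
    have h2 := minkZ (surf n) hn1 (g := fun k e => c k * g k e) (fun k => (hgm k).const_mul _)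
    simp only [ENNReal.rpow_natCast] at h2
    have h3 : ∀ k, (∫⁻ e, (c k * g k e) ^ n ∂(surf n)) ^ (1 / (n:ℝ)) ≤
        (n * K) ^ (1 / (n:ℝ)) * (c k * volume {y | ρ ^ k < |f y|} ^ (1 / (n:ℝ))) := by
      intro k
      have h4 : ∫⁻ e, (c k * g k e) ^ n ∂(surf n) ≤ c k ^ n * (n * K * volume {y | ρ ^ k < |f y|}) := by
        simp only [mul_pow]
        rw [lintegral_const_mul _ ((hgm k).pow_const n)]
        gcongr
        exact hgi k
      calc (∫⁻ e, (c k * g k e) ^ n ∂(surf n)) ^ (1 / (n:ℝ))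
          ≤ (c k ^ n * (n * K * volume {y | ρ ^ k < |f y|})) ^ (1 / (n:ℝ)) :=
            ENNReal.rpow_le_rpow h4 (by positivity)
        _ = _ := by
            rw [ENNReal.mul_rpow_of_nonneg _ _ (by positivity),
              ENNReal.mul_rpow_of_nonneg _ _ (by positivity), ← ENNReal.rpow_natCast,
              ← ENNReal.rpow_mul, mul_one_div, div_self hn0.ne', ENNReal.rpow_one]
            ring
    have h5 : ∑' k, (∫⁻ e, (c k * g k e) ^ n ∂(surf n)) ^ (1 / (n:ℝ)) ≤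
        (n * K) ^ (1 / (n:ℝ)) * (ENNReal.ofReal ρ * I) := by
      refine (ENNReal.tsum_le_tsum h3).trans ?_
      rw [ENNReal.tsum_mul_left]
      refine mul_le_mul_right ?_ _
      exact sum_levels_le_lorentz volume (g := fun y => |f y|) (by positivity) hρ
    calc ∫⁻ e, lineMax f (e : EuclideanSpace ℝ (Fin n)) ^ n ∂(surf n)
        ≤ ∫⁻ e, (∑' k, c k * g k e) ^ n ∂(surf n) :=
          lintegral_mono fun e => pow_le_pow_left₀ zero_le (h1 e) n
      _ ≤ (∑' k, (∫⁻ e, (c k * g k e) ^ n ∂(surf n)) ^ (1 / (n:ℝ))) ^ n := h2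
      _ ≤ ((n * K) ^ (1 / (n:ℝ)) * (ENNReal.ofReal ρ * I)) ^ n := pow_le_pow_left₀ zero_le h5 n
      _ = _ := by
          rw [mul_pow, mul_pow, ← ENNReal.rpow_natCast ((n * K) ^ (1 / (n:ℝ))), ← ENNReal.rpow_mul,
            one_div, inv_mul_cancel₀ hn0.ne', ENNReal.rpow_one, ENNReal.ofReal_pow hρ0.le]
          ring
  have hlim : Tendsto (fun ρ : ℝ => (n * K * I ^ n) * ENNReal.ofReal (ρ ^ n)) (𝓝[>] 1)
      (𝓝 ((n * K * I ^ n) * ENNReal.ofReal ((1:ℝ) ^ n))) := by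
    apply ENNReal.Tendsto.const_mul
    · have h6 : Continuous (fun ρ : ℝ => ENNReal.ofReal (ρ ^ n)) :=
        ENNReal.continuous_ofReal.comp (continuous_pow n)
      exact (h6.tendsto 1).mono_left nhdsWithin_le_nhds
    · left; simp
  rw [one_pow, ENNReal.ofReal_one, mul_one] at hlim
  refine ge_of_tendsto hlim ?_
  filter_upwards [self_mem_nhdsWithin] with ρ hρ
  exact key ρ hρ

/-- **Exponents `p > n`**, a measurable majorant. -/
theorem strong {n : ℕ} (hn : 1 ≤ n) {p : ℝ} (hp : (n:ℝ) < p) : ∃ C : ℝ, 0 < C ∧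
    ∀ (K : ℝ≥0∞) (f : EuclideanSpace ℝ (Fin n) → ℝ), Measurable f →
      (∀ k : ℤ, StructAt K f ((2:ℝ) ^ k)) →
      ∃ M : sphere (0 : EuclideanSpace ℝ (Fin n)) 1 → ℝ≥0∞, Measurable M ∧
        (∀ e : sphere (0 : EuclideanSpace ℝ (Fin n)) 1,
          Pool.Agent.W770.SA.segMaxF f (e : EuclideanSpace ℝ (Fin n)) ≤ M e) ∧
        ∫⁻ e, M e ^ p ∂(surf n) ≤ ENNReal.ofReal C * K * ∫⁻ y, ‖f y‖ₑ ^ p := by
  have hn1 : (1:ℝ) ≤ n := by exact_mod_cast hn
  have hp1 : 1 ≤ p := by linarith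
  have hp0 : 0 < p := by linarith
  obtain ⟨C, hC, hpt⟩ := pointwise hn hp
  refine ⟨C * n * 2, by positivity, ?_⟩
  intro K f hf hs
  choose g hgm hg hgi using fun k : ℤ => level_majorant hn (hs k)
  refine ⟨fun e => ∑' k : ℤ, ENNReal.ofReal ((2:ℝ) ^ k) * min 1 (g k e),
    Measurable.tsum fun k => ((measurable_const.min (hgm k)).const_mul _), ?_, ?_⟩
  · intro e
    refine (segMaxF_leZ hf _).trans (ENNReal.tsum_le_tsum fun k => ?_)
    gcongr
    exact hg k e
  · have h1 : ∀ e : sphere (0 : EuclideanSpace ℝ (Fin n)) 1,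
        (∑' k : ℤ, ENNReal.ofReal ((2:ℝ) ^ k) * min 1 (g k e)) ^ p ≤
        ENNReal.ofReal C * ∑' k : ℤ, ENNReal.ofReal (((2:ℝ) ^ k) ^ p) * g k e ^ n := by
      intro e
      refine (hpt (fun k => min 1 (g k e)) (fun k => min_le_left _ _)).trans ?_
      refine mul_le_mul_right (ENNReal.tsum_le_tsum fun k => ?_) _
      gcongr
      exact min_le_right _ _
    have hfa : Measurable (fun y => |f y|) := hf.abs
    calc ∫⁻ e, (∑' k : ℤ, ENNReal.ofReal ((2:ℝ) ^ k) * min 1 (g k e)) ^ p ∂(surf n)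
        ≤ ∫⁻ e, ENNReal.ofReal C * ∑' k : ℤ, ENNReal.ofReal (((2:ℝ) ^ k) ^ p) * g k e ^ n ∂(surf n) :=
          lintegral_mono h1
      _ = ENNReal.ofReal C * ∑' k : ℤ, ENNReal.ofReal (((2:ℝ) ^ k) ^ p) *
            ∫⁻ e, g k e ^ n ∂(surf n) := by
          rw [lintegral_const_mul _ (Measurable.tsum fun k => ((hgm k).pow_const n).const_mul _),
            lintegral_tsum fun k => (((hgm k).pow_const n).const_mul _).aemeasurable]
          congr 1
          apply tsum_congr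
          intro k
          exact lintegral_const_mul _ ((hgm k).pow_const n)
      _ ≤ ENNReal.ofReal C * ∑' k : ℤ, ENNReal.ofReal (((2:ℝ) ^ k) ^ p) *
            (n * K * volume {y | (2:ℝ) ^ k < |f y|}) := by
          refine mul_le_mul_right (ENNReal.tsum_le_tsum fun k => ?_) _
          gcongr
          exact hgi k
      _ = ENNReal.ofReal C * (n * K * ∑' k : ℤ, ENNReal.ofReal (((2:ℝ) ^ k) ^ p) *
            volume {y | (2:ℝ) ^ k < |f y|}) := by
          congr 1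
          rw [← ENNReal.tsum_mul_left]
          apply tsum_congr
          intro k
          ring
      _ ≤ ENNReal.ofReal C * (n * K * (2 * ∫⁻ y, ENNReal.ofReal (|f y| ^ p))) := by
          gcongr
          exact lintegral_levelsZ volume hfa hp1
      _ = _ := by
          have h2 : ∀ y, ‖f y‖ₑ ^ p = ENNReal.ofReal (|f y| ^ p) := by
            intro y
            rw [Pool.Agent.W770.SA.enorm_eq, ENNReal.ofReal_rpow_of_nonneg (abs_nonneg _) hp0.le]
          simp only [h2]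
          rw [ENNReal.ofReal_mul (by positivity), ENNReal.ofReal_mul (by positivity),
            ENNReal.ofReal_natCast, ENNReal.ofReal_ofNat]
          ring

end Pool.Agent.Q97.KD
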